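import Mathlib
import Pool.Graph.R_seed8.Helper772.MV.LP

set_option autoImplicit false

/-! # The area mean value inequality -/

namespace Pool.Agent.H194.MV

open Complex Metric Set Filter Topology MeasureTheory
open scoped ENNReal

theorem circ_mean_sq {h : ℂ → ℂ} {w : ℂ} {s ρ : ℝ} (hh : DifferentiableOn ℂ h (ball w s))
    (hρ : 0 < ρ) (hρs : ρ < s) :
    ENNReal.ofReal (2 * Real.pi * ‖h w‖ ^ 2) ≤ ∫⁻ θ in Ioo (-Real.pi) Real.pi,
      ENNReal.ofReal (‖h (w + ρ * Complex.exp (θ * Complex.I))‖ ^ 2) := by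
  have hd : DifferentiableOn ℂ (fun z => h z ^ 2) (ball w s) := hh.pow 2
  have hcl : DiffContOnCl ℂ (fun z => h z ^ 2) (ball w |ρ|) := by
    apply DifferentiableOn.diffContOnCl
    rw [closure_ball w (by rw [abs_of_pos hρ]; exact hρ.ne')]
    apply hd.mono
    rw [abs_of_pos hρ]
    exact closedBall_subset_ball hρs
  have h1 := hcl.circleAverage
  rw [Real.circleAverage_def] at h1
  have hcont : Continuous fun θ : ℝ => ‖h (circleMap w ρ θ)‖ ^ 2 := by
    apply Continuous.pow
    apply Continuous.norm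
    apply hh.continuousOn.comp_continuous (continuous_circleMap w ρ)
    intro θ
    rw [mem_ball, dist_eq_norm, circleMap_sub_center, norm_circleMap_zero, abs_of_pos hρ]
    exact hρs
  have h2 : ‖h w‖ ^ 2 ≤ (2 * Real.pi)⁻¹ * ∫ θ in (0:ℝ)..2 * Real.pi, ‖h (circleMap w ρ θ)‖ ^ 2 := by
    rw [← norm_pow, ← h1, norm_smul, Real.norm_of_nonneg (by positivity)]
    apply mul_le_mul_of_nonneg_left _ (by positivity)
    refine (intervalIntegral.norm_integral_le_integral_norm (by positivity)).trans (le_of_eq ?_)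
    apply intervalIntegral.integral_congr
    intro θ _
    simp only [norm_pow]
  have h3 : 2 * Real.pi * ‖h w‖ ^ 2 ≤ ∫ θ in (0:ℝ)..2 * Real.pi, ‖h (circleMap w ρ θ)‖ ^ 2 := by
    have := mul_le_mul_of_nonneg_left h2 (by positivity : 0 ≤ 2 * Real.pi)
    rw [← mul_assoc, mul_inv_cancel₀ (by positivity), one_mul] at this
    exact this
  have hper : Function.Periodic (fun θ => ‖h (circleMap w ρ θ)‖ ^ 2) (2 * Real.pi) := by
    intro θ
    simp only [periodic_circleMap w ρ θ]
  have e1 : ∫ θ in (0:ℝ)..2*Real.pi, ‖h (circleMap w ρ θ)‖ ^ 2 =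
      ∫ θ in (-Real.pi)..Real.pi, ‖h (circleMap w ρ θ)‖ ^ 2 := by
    have := hper.intervalIntegral_add_eq 0 (-Real.pi)
    rw [zero_add] at this
    rw [this]
    congr 1
    ring
  rw [e1, intervalIntegral.integral_of_le (by linarith [Real.pi_pos]),
    integral_Ioc_eq_integral_Ioo] at h3
  refine (ENNReal.ofReal_le_ofReal h3).trans ?_
  rw [ofReal_integral_eq_lintegral_ofReal]
  · exact le_of_eq rfl
  · exact (hcont.integrableOn_Icc (a := -Real.pi) (b := Real.pi)).mono_set Ioo_subset_Icc_self
  · exact Filter.Eventually.of_forall (fun _ => by positivity)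

theorem area_mean_sq {h : ℂ → ℂ} {w : ℂ} {s : ℝ} (hs : 0 < s)
    (hh : DifferentiableOn ℂ h (ball w s)) :
    ENNReal.ofReal (Real.pi * s ^ 2 * ‖h w‖ ^ 2) ≤
      ∫⁻ z in ball w s, ENNReal.ofReal (‖h z‖ ^ 2) := by
  classical
  set G : ℂ → ℝ≥0∞ := (ball (0 : ℂ) s).indicator (fun u => ENNReal.ofReal (‖h (w + u)‖ ^ 2)) with hG
  have hcont : ContinuousOn (fun u => h (w + u)) (ball 0 s) := by
    apply hh.continuousOn.comp (by fun_prop)
    intro u hu
    rw [mem_ball_zero_iff] at hu
    rw [mem_ball, dist_eq_norm, add_sub_cancel_left]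
    exact hu
  have hGm : Measurable G := by
    have h1 : Measurable ((ball (0 : ℂ) s).piecewise (fun u => h (w + u)) 0) :=
      hcont.measurable_piecewise continuousOn_const measurableSet_ball
    have h2 : G = fun u => ENNReal.ofReal
        (‖(ball (0 : ℂ) s).piecewise (fun u => h (w + u)) 0 u‖ ^ 2) := by
      funext u
      by_cases hu : u ∈ ball (0 : ℂ) s
      · rw [hG, indicator_of_mem hu, piecewise_eq_of_mem _ _ _ hu]
      · rw [hG, indicator_of_notMem hu, piecewise_eq_of_notMem _ _ _ hu]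
        simp
    rw [h2]
    exact ENNReal.measurable_ofReal.comp (h1.norm.pow_const 2)
  have e1 : ∫⁻ z in ball w s, ENNReal.ofReal (‖h z‖ ^ 2) = ∫⁻ u in ball (0 : ℂ) s, G u := by
    rw [← lintegral_indicator measurableSet_ball, ← lintegral_indicator measurableSet_ball,
      ← lintegral_add_left_eq_self _ w]
    apply lintegral_congr
    intro u
    by_cases hu : u ∈ ball (0 : ℂ) s
    · have hu' : w + u ∈ ball w s := by
        rw [mem_ball_zero_iff] at hu
        rw [mem_ball, dist_eq_norm, add_sub_cancel_left]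
        exact hu
      rw [indicator_of_mem hu, indicator_of_mem hu', hG, indicator_of_mem hu]
    · have hu' : w + u ∉ ball w s := by
        intro h'
        apply hu
        rw [mem_ball, dist_eq_norm, add_sub_cancel_left] at h'
        rw [mem_ball_zero_iff]
        exact h'
      rw [indicator_of_notMem hu, indicator_of_notMem hu']
  rw [e1, MeanVal.LP.polar_10059 G hGm s]
  have e2 : ENNReal.ofReal (Real.pi * s ^ 2 * ‖h w‖ ^ 2) =
      ∫⁻ ρ in Ioo 0 s, ENNReal.ofReal (ρ * (2 * Real.pi * ‖h w‖ ^ 2)) := by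
    rw [← ofReal_integral_eq_lintegral_ofReal]
    · congr 1
      rw [← integral_Ioc_eq_integral_Ioo, ← intervalIntegral.integral_of_le hs.le,
        intervalIntegral.integral_mul_const, integral_id]
      ring
    · exact ((continuous_id.mul continuous_const).integrableOn_Icc (a := 0) (b := s)).mono_set
        Ioo_subset_Icc_self
    · filter_upwards [ae_restrict_mem measurableSet_Ioo] with ρ hρ
      have := hρ.1
      positivity
  rw [e2]
  apply setLIntegral_mono' measurableSet_Ioo
  intro ρ hρ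
  rw [ENNReal.ofReal_mul hρ.1.le]
  rw [lintegral_const_mul' _ _ ENNReal.ofReal_ne_top]
  gcongr
  refine (circ_mean_sq hh hρ.1 hρ.2).trans (le_of_eq ?_)
  apply lintegral_congr
  intro θ
  rw [hG, indicator_of_mem]
  rw [mem_ball_zero_iff, norm_mul, Complex.norm_exp_ofReal_mul_I, mul_one, Complex.norm_real,
    Real.norm_of_nonneg hρ.1.le]
  exact hρ.2

end Pool.Agent.H194.MV
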