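import Pool.Graph.R_pool_sql_team_seeded_9f66d723.W5h41.MA14
import Pool.Graph.R_seed8.Helper772.MV.CoeffEst

set_option autoImplicit false

/-! # The mean of `|F'|` for univalent functions -/

namespace Pool.Agent.H194.MV

open Complex Metric Set Filter Topology MeasureTheory
open Pool.Agent.W677.Mar Pool.Agent.W5h41.MA

/-- interpolation of the exponential moments -/
theorem MB_interp {C₁ C₂ : ℝ} (hC₁ : 0 < C₁) (hC₂ : 0 < C₂) {s t B₁ B₂ l : ℝ} (hl0 : 0 ≤ l)
    (hl1 : l ≤ 1) (h1 : MB C₁ (s : ℂ) B₁) (h2 : MB C₂ (t : ℂ) B₂) :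
    MB (max C₁ C₂) ((l * s + (1 - l) * t : ℝ) : ℂ) (l * B₁ + (1 - l) * B₂) := by
  intro Y H S r hr
  have e1 := h1 Y H S r hr
  have e2 := h2 Y H S r hr
  have hre : ∀ (u : ℝ) (w : ℂ), ((starRingEnd ℂ) (u : ℂ) * w).re = u * w.re := by
    intro u w
    rw [Complex.conj_ofReal, Complex.re_ofReal_mul]
  simp only [hre] at e1 e2 ⊢
  have hmem : ∀ x : ℝ, circleMap 0 r x ∈ ball (0 : ℂ) 1 := fun x => by
    rw [mem_ball_zero_iff]
    simp [abs_of_pos hr.1, hr.2]
  have hc : Continuous fun x : ℝ => (H (circleMap 0 r x)).re :=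
    Complex.continuous_re.comp
      (S.dH.continuousOn.comp_continuous (continuous_circleMap 0 r) hmem)
  set L := lam (r ^ 2) with hL
  set a₁ : ℝ := Real.log C₁ + B₁ * L with ha₁
  set a₂ : ℝ := Real.log C₂ + B₂ * L with ha₂
  have ea₁ : Real.exp a₁ = C₁ * Real.exp (B₁ * L) := by
    rw [ha₁, Real.exp_add, Real.exp_log hC₁]
  have ea₂ : Real.exp a₂ = C₂ * Real.exp (B₂ * L) := by
    rw [ha₂, Real.exp_add, Real.exp_log hC₂]
  have hpt : ∀ x : ℝ, Real.exp ((l * s + (1 - l) * t) * (H (circleMap 0 r x)).re) ≤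
      Real.exp (l * a₁ + (1 - l) * a₂) * (l * (Real.exp (s * (H (circleMap 0 r x)).re) *
        Real.exp (-a₁)) + (1 - l) * (Real.exp (t * (H (circleMap 0 r x)).re) * Real.exp (-a₂))) := by
    intro x
    have h3 := convexOn_exp.2 (mem_univ (s * (H (circleMap 0 r x)).re - a₁))
      (mem_univ (t * (H (circleMap 0 r x)).re - a₂)) hl0 (sub_nonneg.2 hl1) (by ring)
    simp only [smul_eq_mul] at h3
    rw [← Real.exp_add, ← Real.exp_add, ← sub_eq_add_neg, ← sub_eq_add_neg]
    have h4 : Real.exp ((l * s + (1 - l) * t) * (H (circleMap 0 r x)).re) =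
        Real.exp (l * a₁ + (1 - l) * a₂) * Real.exp (l * (s * (H (circleMap 0 r x)).re - a₁) +
          (1 - l) * (t * (H (circleMap 0 r x)).re - a₂)) := by
      rw [← Real.exp_add]
      congr 1
      ring
    rw [h4]
    exact mul_le_mul_of_nonneg_left h3 (Real.exp_pos _).le
  have hc1 : Continuous fun x : ℝ => Real.exp (s * (H (circleMap 0 r x)).re) := by fun_prop
  have hc2 : Continuous fun x : ℝ => Real.exp (t * (H (circleMap 0 r x)).re) := by fun_prop
  have hc3 : Continuous fun x : ℝ => Real.exp ((l * s + (1 - l) * t) * (H (circleMap 0 r x)).re) := by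
    fun_prop
  have hc4 : Continuous fun x : ℝ => Real.exp (l * a₁ + (1 - l) * a₂) *
      (l * (Real.exp (s * (H (circleMap 0 r x)).re) *
        Real.exp (-a₁)) + (1 - l) * (Real.exp (t * (H (circleMap 0 r x)).re) * Real.exp (-a₂))) := by
    fun_prop
  have hint := intervalIntegral.integral_mono_on (μ := volume) (a := 0) (b := 2 * Real.pi)
    (by positivity) (hc3.intervalIntegrable _ _)
    (hc4.intervalIntegrable _ _) (fun x _ => hpt x)
  refine hint.trans ?_
  rw [intervalIntegral.integral_const_mul, intervalIntegral.integral_add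
    (Continuous.intervalIntegrable (by fun_prop) _ _)
    (Continuous.intervalIntegrable (by fun_prop) _ _),
    intervalIntegral.integral_const_mul, intervalIntegral.integral_const_mul,
    intervalIntegral.integral_mul_const, intervalIntegral.integral_mul_const]
  have f1 : (∫ x in (0:ℝ)..(2 * Real.pi), Real.exp (s * (H (circleMap 0 r x)).re)) *
      Real.exp (-a₁) ≤ 1 := by
    rw [Real.exp_neg, ea₁, ← div_eq_mul_inv, div_le_one (by positivity)]
    exact e1
  have f2 : (∫ x in (0:ℝ)..(2 * Real.pi), Real.exp (t * (H (circleMap 0 r x)).re)) *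
      Real.exp (-a₂) ≤ 1 := by
    rw [Real.exp_neg, ea₂, ← div_eq_mul_inv, div_le_one (by positivity)]
    exact e2
  have f3 : Real.exp (l * a₁ + (1 - l) * a₂) ≤
      max C₁ C₂ * Real.exp ((l * B₁ + (1 - l) * B₂) * L) := by
    have g1 : Real.log C₁ ≤ Real.log (max C₁ C₂) := Real.log_le_log hC₁ (le_max_left _ _)
    have g2 : Real.log C₂ ≤ Real.log (max C₁ C₂) := Real.log_le_log hC₂ (le_max_right _ _)
    rw [← Real.exp_log (lt_max_of_lt_left hC₁ : 0 < max C₁ C₂), ← Real.exp_add]
    apply Real.exp_le_exp.2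
    rw [ha₁, ha₂]
    nlinarith [mul_le_mul_of_nonneg_left g1 hl0, mul_le_mul_of_nonneg_left g2 (sub_nonneg.2 hl1)]
  have f4 : l * ((∫ x in (0:ℝ)..(2 * Real.pi), Real.exp (s * (H (circleMap 0 r x)).re)) *
      Real.exp (-a₁)) + (1 - l) * ((∫ x in (0:ℝ)..(2 * Real.pi),
        Real.exp (t * (H (circleMap 0 r x)).re)) * Real.exp (-a₂)) ≤ 1 := by
    nlinarith [mul_le_mul_of_nonneg_left f1 hl0, mul_le_mul_of_nonneg_left f2 (sub_nonneg.2 hl1)]
  calc _ ≤ Real.exp (l * a₁ + (1 - l) * a₂) * 1 :=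
        mul_le_mul_of_nonneg_left f4 (Real.exp_pos _).le
    _ ≤ _ := by rw [mul_one]; exact f3

/-- the exponent used for the mean of `|F'|` -/
noncomputable def aa : ℝ := 4709 / 10000

theorem MB_small : ∃ C : ℝ, 0 < C ∧ MB C ((17 / 100 : ℝ) : ℂ) (317 / 10000) := by
  obtain ⟨C, hC⟩ := MB_method (θ := 111 / 1000) (δ := 1 / 100000) (by norm_num) (by norm_num)
    (by norm_num)
  have hn : ‖((17 / 100 : ℝ) : ℂ)‖ = 17 / 100 := by
    rw [Complex.norm_real, Real.norm_of_nonneg (by norm_num)]
  have h1 : MB C ((17 / 100 : ℝ) : ℂ) (317 / 10000) := by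
    apply hC _ _ (by
      intro h
      rw [h, norm_zero] at hn
      norm_num at hn) (by rw [hn]; norm_num) (by norm_num) (by norm_num)
    rw [hn, Complex.ofReal_re]
    norm_num
  exact ⟨max C 1, lt_max_of_lt_right one_pos, MB_mono h1 (le_max_left _ _)⟩

theorem MB_one : ∃ C : ℝ, 0 < C ∧ MB C 1 aa := by
  obtain ⟨C, hC0, hC⟩ := MB_small
  have h2 : MB (2 * (4 * Real.pi)) ((2 : ℝ) : ℂ) 1 := by
    have := MB_two
    simpa using this
  have h3 := MB_interp (l := 100 / 183) hC0 (by positivity) (by norm_num) (by norm_num) hC h2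
  have e1 : ((100 / 183 * (17 / 100) + (1 - 100 / 183) * 2 : ℝ) : ℂ) = 1 := by
    norm_num
  rw [e1] at h3
  refine ⟨max C (2 * (4 * Real.pi)), lt_max_of_lt_left hC0, ?_⟩
  intro Y H S r hr
  refine (h3 Y H S r hr).trans ?_
  apply mul_le_mul_of_nonneg_left _ (le_max_of_le_left hC0.le)
  apply Real.exp_le_exp.2
  apply mul_le_mul_of_nonneg_right _ (lam_pos hr).le
  unfold aa
  norm_num

/-- the mean of `exp (Re H)` over a thin annulus -/
theorem annulus_exp : ∃ C : ℝ, 0 < C ∧ ∀ Y H : ℂ → ℂ, Sg Y H → ∀ X : ℝ, 16 ≤ X →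
    ∫⁻ v in {v : ℂ | 1 - 9 / X < ‖v‖ ∧ ‖v‖ < 1 - 1 / (64 * X)},
      ENNReal.ofReal (Real.exp (H v).re) ≤ ENNReal.ofReal (C * X ^ (aa - 1)) := by
  obtain ⟨C, hC0, hC⟩ := MB_one
  refine ⟨9 * 64 * C, by positivity, fun Y H S X hX => ?_⟩
  have hX0 : 0 < X := by linarith
  have hb := MeanVal.CoeffEst.polar_bound (fun v => Complex.exp (H v / 2)) (1 - 9 / X)
    (1 - 1 / (64 * X)) (C * (64 * X) ^ aa) (by
      rw [sub_nonneg, div_le_one hX0]; linarith) (by
      have h1 : 1 / (64 * X) ≤ 9 / X := by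
        rw [div_le_div_iff₀ (by positivity) hX0]
        nlinarith
      linarith) (by
      have : 0 < 1 / (64 * X) := by positivity
      linarith) (by positivity) (fun ρ hρ1 hρ2 => ?_)
  · have e1 : ∀ v : ℂ, ‖Complex.exp (H v / 2)‖ ^ 2 = Real.exp (H v).re := by
      intro v
      rw [Complex.norm_exp, ← Real.exp_nat_mul]
      congr 1
      have : (H v / 2).re = (H v).re / 2 := by
        rw [Complex.div_re]
        simp [Complex.normSq]
        ring
      rw [this]
      push_cast
      ring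
    simp only [e1] at hb
    refine hb.trans (ENNReal.ofReal_le_ofReal ?_)
    have h2 : (1 - 1 / (64 * X) - (1 - 9 / X)) ≤ 9 / X := by
      have : 0 < 1 / (64 * X) := by positivity
      linarith
    have h3 : (64 * X) ^ aa ≤ 64 * X ^ aa := by
      rw [Real.mul_rpow (by norm_num) hX0.le]
      apply mul_le_mul_of_nonneg_right _ (by positivity)
      calc (64 : ℝ) ^ aa ≤ 64 ^ (1 : ℝ) :=
            Real.rpow_le_rpow_of_exponent_le (by norm_num) (by unfold aa; norm_num)
        _ = 64 := Real.rpow_one _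
    calc (1 - 1 / (64 * X) - (1 - 9 / X)) * (C * (64 * X) ^ aa)
        ≤ (9 / X) * (C * (64 * X ^ aa)) := by
          apply mul_le_mul h2 (mul_le_mul_of_nonneg_left h3 hC0.le) (by positivity) (by positivity)
      _ = 9 * 64 * C * X ^ (aa - 1) := by
          rw [Real.rpow_sub_one hX0.ne']
          field_simp
  · have hρ0 : 0 < ρ := by
      have : 9 / X < 1 := by rw [div_lt_one hX0]; linarith
      linarith
    have hρ1' : ρ < 1 := by
      have : 0 < 1 / (64 * X) := by positivity
      linarith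
    have h1 := hC Y H S ρ ⟨hρ0, hρ1'⟩
    simp only [map_one, one_mul] at h1
    have hmem : ∀ x : ℝ, circleMap 0 ρ x ∈ ball (0 : ℂ) 1 := fun x => by
      rw [mem_ball_zero_iff]
      simp [abs_of_pos hρ0, hρ1']
    have hc : Continuous fun x : ℝ => Real.exp (H (circleMap 0 ρ x)).re :=
      Real.continuous_exp.comp (Complex.continuous_re.comp
        (S.dH.continuousOn.comp_continuous (continuous_circleMap 0 ρ) hmem))
    have hper : Function.Periodic (fun x => Real.exp (H (circleMap 0 ρ x)).re) (2 * Real.pi) := by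
      intro x
      simp only [periodic_circleMap 0 ρ x]
    have e1 : ∫ x in (0:ℝ)..2*Real.pi, Real.exp (H (circleMap 0 ρ x)).re =
        ∫ x in (-Real.pi)..Real.pi, Real.exp (H (circleMap 0 ρ x)).re := by
      have := hper.intervalIntegral_add_eq 0 (-Real.pi)
      rw [zero_add] at this
      rw [this]
      congr 1
      ring
    rw [e1, intervalIntegral.integral_of_le (by linarith [Real.pi_pos]),
      integral_Ioc_eq_integral_Ioo] at h1
    have e2 : ∫⁻ θ in Ioo (-Real.pi) Real.pi, ENNReal.ofReal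
        (‖(fun v => Complex.exp (H v / 2)) (ρ * Complex.exp (θ * Complex.I))‖ ^ 2) =
        ENNReal.ofReal (∫ x in Ioo (-Real.pi) Real.pi, Real.exp (H (circleMap 0 ρ x)).re) := by
      rw [ofReal_integral_eq_lintegral_ofReal]
      · apply lintegral_congr
        intro θ
        congr 1
        have e3 : (ρ : ℂ) * Complex.exp (θ * Complex.I) = circleMap 0 ρ θ := by
          simp [circleMap]
        simp only [e3]
        rw [Complex.norm_exp, ← Real.exp_nat_mul]
        congr 1
        have : (H (circleMap 0 ρ θ) / 2).re = (H (circleMap 0 ρ θ)).re / 2 := by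
          rw [Complex.div_re]
          simp [Complex.normSq]
          ring
        rw [this]
        push_cast
        ring
      · exact (hc.integrableOn_Icc (a := -Real.pi) (b := Real.pi)).mono_set Ioo_subset_Icc_self
      · exact Filter.Eventually.of_forall (fun _ => (Real.exp_pos _).le)
    rw [e2]
    apply ENNReal.ofReal_le_ofReal
    refine h1.trans ?_
    apply mul_le_mul_of_nonneg_left _ hC0.le
    have h2 : 0 < 1 - ρ ^ 2 := by nlinarith
    have h3 : 1 / (64 * X) ≤ 1 - ρ ^ 2 := by nlinarith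
    unfold lam
    rw [Real.rpow_def_of_pos (by positivity), mul_comm (Real.log (64 * X))]
    apply Real.exp_le_exp.2
    apply mul_le_mul_of_nonneg_left _ (by unfold aa; norm_num)
    have h4 := Real.log_le_log (by positivity) h3
    rw [one_div, Real.log_inv] at h4
    linarith

/-- the exterior map attached to a univalent function -/
theorem exists_Sg {F : ℂ → ℂ} (hd : DifferentiableOn ℂ F (ball 0 1)) (hi : InjOn F (ball 0 1))
    (hc : deriv F 0 ≠ 0) (hne : ∀ v ∈ ball (0 : ℂ) 1, deriv F v ≠ 0) :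
    ∃ Y H : ℂ → ℂ, Sg Y H ∧ ∀ v ∈ ball (0 : ℂ) 1, v ≠ 0 →
      Complex.exp (H v) = deriv F 0 * deriv F v * v ^ 2 / (F v - F 0) ^ 2 := by
  have h0 : (0 : ℂ) ∈ ball (0 : ℂ) 1 := mem_ball_self one_pos
  have hq : DifferentiableOn ℂ (dslope F 0) (ball 0 1) :=
    (Complex.differentiableOn_dslope (isOpen_ball.mem_nhds h0)).2 hd
  have hq0 : dslope F 0 0 = deriv F 0 := dslope_same _ _
  have hmul : ∀ v : ℂ, v * dslope F 0 v = F v - F 0 := by
    intro v
    have := sub_smul_dslope F 0 v
    simpa using this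
  have hqne : ∀ v ∈ ball (0 : ℂ) 1, dslope F 0 v ≠ 0 := by
    intro v hv h
    by_cases hv0 : v = 0
    · rw [hv0, hq0] at h
      exact hc h
    · have h1 := hmul v
      rw [h, mul_zero] at h1
      exact hv0 (hi hv h0 (sub_eq_zero.1 h1.symm))
  have hqd : ∀ v ∈ ball (0 : ℂ) 1, deriv F v = dslope F 0 v + v * deriv (dslope F 0) v := by
    intro v hv
    have h1 : HasDerivAt (fun v => v * dslope F 0 v)
        (1 * dslope F 0 v + v * deriv (dslope F 0) v) v :=
      (hasDerivAt_id v).mul (hq.differentiableAt (isOpen_ball.mem_nhds hv)).hasDerivAt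
    have h2 : (fun v => v * dslope F 0 v) = fun v => F v - F 0 := by
      funext v
      exact hmul v
    rw [h2] at h1
    have h3 := h1.deriv
    rw [deriv_sub_const] at h3
    rw [h3]
    ring
  set Y : ℂ → ℂ := fun v => deriv F 0 / dslope F 0 v with hY
  have hYd : DifferentiableOn ℂ Y (ball 0 1) := (differentiableOn_const _).div hq hqne
  have hYeq : ∀ v ∈ ball (0 : ℂ) 1, Y v - v * deriv Y v =
      deriv F 0 * deriv F v / (dslope F 0 v) ^ 2 := by
    intro v hv
    have h1 : HasDerivAt Y ((0 * dslope F 0 v - deriv F 0 * deriv (dslope F 0) v) /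
        (dslope F 0 v) ^ 2) v :=
      (hasDerivAt_const v (deriv F 0)).div
        (hq.differentiableAt (isOpen_ball.mem_nhds hv)).hasDerivAt (hqne v hv)
    rw [h1.deriv, hqd v hv]
    have := hqne v hv
    simp only [hY]
    field_simp
    ring
  set k : ℂ → ℂ := fun v => deriv F 0 * deriv F v / (dslope F 0 v) ^ 2 with hk
  have hdF : DifferentiableOn ℂ (deriv F) (ball 0 1) := hd.deriv isOpen_ball
  have hkd : DifferentiableOn ℂ k (ball 0 1) := by
    apply ((differentiableOn_const _).mul hdF).div (hq.pow 2)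
    intro v hv
    exact pow_ne_zero 2 (hqne v hv)
  have hkne : ∀ v ∈ ball (0 : ℂ) 1, k v ≠ 0 := by
    intro v hv
    exact div_ne_zero (mul_ne_zero hc (hne v hv)) (pow_ne_zero 2 (hqne v hv))
  have hk0 : k 0 = 1 := by
    simp only [hk]
    rw [hq0]
    field_simp
  have hquot : DifferentiableOn ℂ (fun v => deriv k v / k v) (ball 0 1) :=
    (hkd.deriv isOpen_ball).div hkd hkne
  obtain ⟨H, hH0, hH⟩ := hquot.isExactOn_ball.with_val_at 0 0
  have hHd : DifferentiableOn ℂ H (ball 0 1) := fun v hv =>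
    (hH v hv).differentiableAt.differentiableWithinAt
  have hexp : ∀ v ∈ ball (0 : ℂ) 1, Complex.exp (H v) = k v := by
    have hg : DifferentiableOn ℂ (fun v => k v * Complex.exp (-H v)) (ball 0 1) :=
      hkd.mul (hHd.neg.cexp)
    have hg0 : ∀ v ∈ ball (0 : ℂ) 1, deriv (fun v => k v * Complex.exp (-H v)) v = 0 := by
      intro v hv
      have h1 : HasDerivAt (fun v => k v * Complex.exp (-H v))
          (deriv k v * Complex.exp (-H v) + k v * (Complex.exp (-H v) * (-(deriv k v / k v)))) v :=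
        ((hkd.differentiableAt (isOpen_ball.mem_nhds hv)).hasDerivAt).mul (hH v hv).neg.cexp
      rw [h1.deriv]
      have := hkne v hv
      field_simp
      ring
    intro v hv
    have h1 : k v * Complex.exp (-H v) = k 0 * Complex.exp (-H 0) :=
      isOpen_ball.is_const_of_deriv_eq_zero (convex_ball (0 : ℂ) 1).isPreconnected hg hg0 hv h0
    rw [hk0, hH0, neg_zero, Complex.exp_zero, mul_one, Complex.exp_neg] at h1
    have h2 := Complex.exp_ne_zero (H v)
    field_simp at h1
    exact h1.symm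
  refine ⟨Y, H, ⟨⟨hYd, ?_, ?_⟩, hHd, hH0, ?_⟩, ?_⟩
  · simp only [hY]
    rw [hq0, div_self hc]
  · intro z hz w hw hzw
    have hz0 : z ≠ 0 := hz.2
    have hw0 : w ≠ 0 := hw.2
    have h1 : Y z / z = deriv F 0 / (F z - F 0) := by
      simp only [hY]
      rw [div_div, mul_comm (dslope F 0 z) z, hmul]
    have h2 : Y w / w = deriv F 0 / (F w - F 0) := by
      simp only [hY]
      rw [div_div, mul_comm (dslope F 0 w) w, hmul]
    have hzw' : Y z / z = Y w / w := hzw
    rw [h1, h2] at hzw'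
    have h3 : F z - F 0 ≠ 0 := by
      rw [← hmul]; exact mul_ne_zero hz0 (hqne z hz.1)
    have h4 : F w - F 0 ≠ 0 := by
      rw [← hmul]; exact mul_ne_zero hw0 (hqne w hw.1)
    rw [div_eq_div_iff h3 h4] at hzw'
    have h5 := mul_left_cancel₀ hc hzw'
    exact (hi hw.1 hz.1 (sub_left_injective h5)).symm
  · intro v hv
    rw [hexp v hv, hYeq v hv]
  · intro v hv hv0
    rw [hexp v hv, ← hmul v]
    have := hqne v hv
    simp only [hk]
    field_simp

end Pool.Agent.H194.MV
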