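import Pool.Agent.H194.MV.B9
import Pool.Graph.R_seed8.Helper772.MV.Annulus
import Pool.Graph.R_seed8.Helper772.MV.Logs

set_option autoImplicit false

/-! # The coefficient estimate -/

namespace Pool.Agent.H194.MV

open Complex Metric Set Filter Topology MeasureTheory
open scoped ENNReal
open MeanVal.CoeffEst (PP h2)

variable {f : ℂ → ℂ} {r₁ C₁ CE : ℝ}

theorem deriv_total (K : Ctx f r₁ C₁ CE) {n : ℕ} (hn : 16 ≤ n)
    (hn2 : 2 / (n:ℝ) ≤ 1 - (8 * r₁ + 1) / 9) {m : ℕ} {ζ : Fin m → ℂ}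
    (hζ : ∀ l, ‖ζ l‖ = 1) {B T : ℝ} (hB : 0 ≤ B) (hT : 0 ≤ T)
    (hsup : ∀ z : ℂ, r₁ ≤ ‖z‖ → ‖z‖ ≤ 1 - 1 / (n:ℝ) → ‖f z‖ * ‖PP ζ z‖ * (1 - ‖z‖) ^ aa ≤ B)
    (h : ∫⁻ z in AA n, ENNReal.ofReal (‖deriv f z‖ * ‖PP ζ z‖) ≤ ENNReal.ofReal T) :
    ∫⁻ z in AA n, ENNReal.ofReal ‖deriv (fun z => f z * PP ζ z) z‖ ≤
      ENNReal.ofReal ((m + 1) * (T + B * (n:ℝ) ^ aa * (m * (16 * (1 + Real.log n) / n)))) := by
  have hnR : (16:ℝ) ≤ n := by exact_mod_cast hn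
  have hn0 : (0:ℝ) < n := by linarith
  have hlogn : 0 ≤ Real.log n := Real.log_nonneg (by linarith)
  have h1n : 0 < 1 / (n:ℝ) := by positivity
  have hpt : ∀ z ∈ AA n, ENNReal.ofReal ‖deriv (fun z => f z * PP ζ z) z‖ ≤
      ENNReal.ofReal (m + 1) * (ENNReal.ofReal (‖deriv f z‖ * ‖PP ζ z‖) +
        ENNReal.ofReal (B * (n:ℝ) ^ aa) * ∑ l, ENNReal.ofReal (1 / ‖z - ζ l‖)) := by
    intro z hz
    have hz1 : r₁ ≤ ‖z‖ := by
      have := hz.1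
      have := K.r1
      linarith
    have hz2 : ‖z‖ < 1 - 1 / (n:ℝ) := hz.2
    have h1 := deriv_bound K hζ hz1 (by linarith)
    have h3 := hsup z hz1 hz2.le
    have h4 : ‖f z‖ * ‖PP ζ z‖ ≤ B * (n:ℝ) ^ aa := by
      have h5 : 0 < 1 - ‖z‖ := by linarith
      have h6 : (1 / (n:ℝ)) ^ aa ≤ (1 - ‖z‖) ^ aa :=
        Real.rpow_le_rpow h1n.le (by linarith) (by unfold aa; norm_num)
      have h7 : ‖f z‖ * ‖PP ζ z‖ * (1 / (n:ℝ)) ^ aa ≤ B :=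
        (mul_le_mul_of_nonneg_left h6 (by positivity)).trans h3
      have h8 : (1 / (n:ℝ)) ^ aa * (n:ℝ) ^ aa = 1 := by
        rw [← Real.mul_rpow h1n.le hn0.le, one_div, inv_mul_cancel₀ hn0.ne', Real.one_rpow]
      calc ‖f z‖ * ‖PP ζ z‖ = ‖f z‖ * ‖PP ζ z‖ * (1 / (n:ℝ)) ^ aa * (n:ℝ) ^ aa := by
            rw [mul_assoc (‖f z‖ * ‖PP ζ z‖), h8, mul_one]
        _ ≤ B * (n:ℝ) ^ aa := mul_le_mul_of_nonneg_right h7 (by positivity)
    have hS : 0 ≤ ∑ l, 1 / ‖z - ζ l‖ := Finset.sum_nonneg fun _ _ => by positivity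
    rw [← ENNReal.ofReal_sum_of_nonneg (fun _ _ => by positivity),
      ← ENNReal.ofReal_mul (by positivity), ← ENNReal.ofReal_add (by positivity) (by positivity),
      ← ENNReal.ofReal_mul (by positivity)]
    apply ENNReal.ofReal_le_ofReal
    refine h1.trans ?_
    apply mul_le_mul_of_nonneg_left _ (by positivity)
    have := mul_le_mul_of_nonneg_right h4 hS
    linarith
  have hmeas : Measurable fun z => ENNReal.ofReal (‖deriv f z‖ * ‖PP ζ z‖) := by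
    apply ENNReal.measurable_ofReal.comp
    exact (measurable_deriv f).norm.mul (MeanVal.CoeffEst.PP_diff ζ).continuous.norm.measurable
  calc ∫⁻ z in AA n, ENNReal.ofReal ‖deriv (fun z => f z * PP ζ z) z‖
      ≤ ∫⁻ z in AA n, ENNReal.ofReal (m + 1) * (ENNReal.ofReal (‖deriv f z‖ * ‖PP ζ z‖) +
        ENNReal.ofReal (B * (n:ℝ) ^ aa) * ∑ l, ENNReal.ofReal (1 / ‖z - ζ l‖)) :=
        setLIntegral_mono' (AA_meas n) hpt
    _ = ENNReal.ofReal (m + 1) * ((∫⁻ z in AA n, ENNReal.ofReal (‖deriv f z‖ * ‖PP ζ z‖)) +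
        ENNReal.ofReal (B * (n:ℝ) ^ aa) *
          ∑ l, ∫⁻ z in AA n, ENNReal.ofReal (1 / ‖z - ζ l‖)) := by
        rw [lintegral_const_mul' _ _ ENNReal.ofReal_ne_top, lintegral_add_left hmeas,
          lintegral_const_mul' _ _ ENNReal.ofReal_ne_top, lintegral_finsetSum]
        intro l _
        fun_prop
    _ ≤ ENNReal.ofReal (m + 1) * (ENNReal.ofReal T + ENNReal.ofReal (B * (n:ℝ) ^ aa) *
          ∑ l : Fin m, ENNReal.ofReal (16 * (1 + Real.log n) / n)) := by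
        gcongr with l
        exact pole_annulus (hζ l) (by omega)
    _ = _ := by
        rw [Finset.sum_const, Finset.card_univ, Fintype.card_fin, nsmul_eq_mul,
          ← ENNReal.ofReal_natCast, ← ENNReal.ofReal_mul (by positivity),
          ← ENNReal.ofReal_mul (by positivity), ← ENNReal.ofReal_add hT (by positivity),
          ← ENNReal.ofReal_mul (by positivity)]

/-- the coefficient estimate -/
theorem coeff_bound (K : Ctx f r₁ C₁ CE) (m k : ℕ) {ε : ℝ} (hε : 0 < ε) :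
    ∃ (Q : ℝ) (n₀ : ℕ), 0 ≤ Q ∧ ∀ n : ℕ, n₀ ≤ n → ∀ ζ : Fin m → ℂ, (∀ l, ‖ζ l‖ = 1) →
      ∀ B : ℝ, 0 ≤ B → (∀ z : ℂ, r₁ ≤ ‖z‖ → ‖z‖ ≤ 1 - 1 / (n:ℝ) →
        ‖f z‖ * ‖PP ζ z‖ * (1 - ‖z‖) ^ aa ≤ B) → ∀ N : ℕ, n ≤ N → N ≤ n + k →
      ‖MeanVal.coeff (fun z => f z * PP ζ z) N‖ ≤
        Q * (1 + B) * ((n:ℝ) ^ ε) ^ 7 * (n:ℝ) ^ (aa - 1) := by
  obtain ⟨Kl, hKl, hloc⟩ := exists_LocC
  obtain ⟨C₂, hC₂, hlog⟩ := MeanVal.Logs.logf_bound r₁ C₁ K.r0 K.r1 K.C0.le f K.diff K.hL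
  obtain ⟨CA, hCA, hAnn⟩ := MeanVal.Annulus.coeff_le_annulus k
  have hr0 := K.r0
  have hr1 := K.r1
  have hE0 := K.E0
  have hC₁ := K.C0
  have hpi := Real.pi_pos
  set a : ℝ := (8 * r₁ + 1) / 9 with ha
  have ha1 : a < 1 := by rw [ha]; linarith
  obtain ⟨c, hc0, hc⟩ : ∃ c : ℝ, 0 ≤ c ∧ ∀ z : ℂ, ‖z‖ ≤ a → ‖f z‖ ≤ Real.exp c := by
    have hcomp : IsCompact (closedBall (0:ℂ) a) := isCompact_closedBall _ _
    have hcont : ContinuousOn (fun z => ‖f z‖) (closedBall (0:ℂ) a) :=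
      (K.diff.continuousOn.mono (closedBall_subset_ball ha1)).norm
    obtain ⟨M, hM⟩ := hcomp.bddAbove_image hcont
    have hM' : ∀ z : ℂ, ‖z‖ ≤ a → ‖f z‖ ≤ M := fun z hz => hM ⟨z, by simpa using hz, rfl⟩
    refine ⟨max M 0, le_max_right _ _, fun z hz => ?_⟩
    have h1 := hM' z hz
    have h2 := Real.add_one_le_exp (max M 0)
    have h3 := le_max_left M 0
    linarith
  have hD0 : 0 < ‖deriv f 0‖ := norm_pos_iff.2
    (Pool.Agent.Helper202.Univ.deriv_ne_zero isOpen_ball K.diff K.inj (mem_ball_self one_pos))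
  set J : ℝ := ((⌈(C₂ + C₁) / ε⌉₊ : ℕ) : ℝ) with hJ
  have hJ0 : 0 ≤ J := Nat.cast_nonneg _
  set Q₁ : ℝ := 2 ^ m * (Kl * (Real.exp c ^ 2 / ‖deriv f 0‖)) with hQ₁
  set Q₂ : ℝ := J * ((64 * CE * (1 + 1 / ε) / (Real.pi * ε ^ 2)) * (3 ^ m * Kl / ε)) with hQ₂
  set Q₃ : ℝ := m * (16 * (1 + 1 / ε)) with hQ₃
  have hQ₁0 : 0 ≤ Q₁ := by positivity
  have hQ₂0 : 0 ≤ Q₂ := by positivity
  have hQ₃0 : 0 ≤ Q₃ := by positivity
  -- large n
  have hev : ∀ᶠ n : ℕ in atTop, 16 ≤ n ∧ 2 / (n:ℝ) ≤ 1 - a ∧ 16 ≤ (n:ℝ) ^ (ε / C₁) := by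
    refine (eventually_ge_atTop 16).and (Filter.Eventually.and ?_ ?_)
    · have h1 : Tendsto (fun n : ℕ => 2 / (n:ℝ)) atTop (𝓝 0) :=
        tendsto_const_div_atTop_nhds_zero_nat 2
      filter_upwards [h1.eventually (ge_mem_nhds (by linarith : (0:ℝ) < 1 - a))] with n hn
      exact hn
    · have h1 : Tendsto (fun n : ℕ => (n:ℝ) ^ (ε / C₁)) atTop atTop :=
        (tendsto_rpow_atTop (div_pos hε hC₁)).comp tendsto_natCast_atTop_atTop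
      exact h1.eventually_ge_atTop 16
  obtain ⟨n₀, hn₀⟩ := Filter.eventually_atTop.1 hev
  refine ⟨CA * ((m + 1) * (Q₁ + Q₂ + Q₃)), n₀, by positivity, ?_⟩
  intro n hn ζ hζ B hB hsup N hnN hNk
  obtain ⟨hn16, hn2, hn3⟩ := hn₀ n hn
  have hnR : (16:ℝ) ≤ n := by exact_mod_cast hn16
  have hn0 : (0:ℝ) < n := by linarith
  have hlogn : 0 ≤ Real.log n := Real.log_nonneg (by linarith)
  have hgd : DifferentiableOn ℂ (fun z => f z * PP ζ z) (ball 0 1) :=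
    K.diff.mul (MeanVal.CoeffEst.PP_diff ζ).differentiableOn
  have h1 := sum_bound hKl hloc K hε hc0 hc hC₂ hlog hn16 hn2 hn3 hζ hB hsup
  have h2 := deriv_total K hn16 hn2 hζ hB (by positivity) hsup h1
  have h3 := (hAnn _ hgd n N (by omega) hnN hNk).trans
    (mul_le_mul_right h2 (ENNReal.ofReal CA))
  rw [← ENNReal.ofReal_mul hCA] at h3
  have h4 := (ENNReal.ofReal_le_ofReal_iff (by positivity)).1 h3
  refine h4.trans ?_
  set X : ℝ := (n:ℝ) ^ ε with hX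
  have hX1 : 1 ≤ X := Real.one_le_rpow (by linarith) hε.le
  have hX0 : 0 < X := by linarith
  have hXq : Real.exp (ε * Real.log n) = X := by
    rw [hX, Real.rpow_def_of_pos hn0, mul_comm]
  have hX6 : Real.exp (6 * (ε * Real.log n)) = X ^ 6 := by
    rw [← hXq, ← Real.exp_nat_mul]
    congr 1
  have hX4 : Real.exp (c + 2 * (ε * Real.log n)) ^ 2 = Real.exp c ^ 2 * X ^ 4 := by
    rw [← hXq, Real.exp_add, mul_pow, ← Real.exp_nat_mul (2 * (ε * Real.log n)),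
      ← Real.exp_nat_mul (ε * Real.log n)]
    congr 2
    push_cast
    ring
  have hXl : 1 + Real.log n ≤ (1 + 1 / ε) * X := by
    have h6 := Real.log_le_rpow_div hn0.le hε
    have h8 : X / ε = 1 / ε * X := by ring
    rw [← hX, h8] at h6
    nlinarith
  set Y : ℝ := (n:ℝ) ^ (aa - 1) with hY
  have hY0 : 0 < Y := Real.rpow_pos_of_pos hn0 _
  have hYn : (n:ℝ) ^ aa = Y * n := by
    rw [hY, Real.rpow_sub_one hn0.ne']
    field_simp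
  rw [hX6, hX4, hYn]
  have t1 : 2 ^ m * (Kl * (Real.exp c ^ 2 * X ^ 4 / ‖deriv f 0‖) * Y) ≤
      Q₁ * ((1 + B) * X ^ 7 * Y) := by
    have e1 : 2 ^ m * (Kl * (Real.exp c ^ 2 * X ^ 4 / ‖deriv f 0‖) * Y) = Q₁ * (1 * X ^ 4 * Y) := by
      rw [hQ₁]; ring
    rw [e1]
    have : X ^ 4 ≤ X ^ 7 := pow_le_pow_right₀ hX1 (by norm_num)
    gcongr
    linarith
  have t2 : J * ((64 * CE * (1 + Real.log n) / (Real.pi * ε ^ 2)) *
        (3 ^ m * Kl / ε * X ^ 6 * Y * B)) ≤ Q₂ * ((1 + B) * X ^ 7 * Y) := by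
    calc J * ((64 * CE * (1 + Real.log n) / (Real.pi * ε ^ 2)) *
        (3 ^ m * Kl / ε * X ^ 6 * Y * B))
        ≤ J * ((64 * CE * ((1 + 1 / ε) * X) / (Real.pi * ε ^ 2)) *
        (3 ^ m * Kl / ε * X ^ 6 * Y * (1 + B))) := by
          gcongr
          linarith
      _ = Q₂ * ((1 + B) * X ^ 7 * Y) := by rw [hQ₂]; ring
  have t3 : B * (Y * n) * (m * (16 * (1 + Real.log n) / n)) ≤ Q₃ * ((1 + B) * X ^ 7 * Y) := by
    calc B * (Y * n) * (m * (16 * (1 + Real.log n) / n))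
        = m * (16 * (1 + Real.log n)) * (B * 1 * Y) := by field_simp
      _ ≤ m * (16 * ((1 + 1 / ε) * X)) * ((1 + B) * X ^ 6 * Y) := by
          have : 1 ≤ X ^ 6 := one_le_pow₀ hX1
          gcongr
          linarith
      _ = Q₃ * ((1 + B) * X ^ 7 * Y) := by rw [hQ₃]; ring
  calc CA * ((m + 1) * (2 ^ m * (Kl * (Real.exp c ^ 2 * X ^ 4 / ‖deriv f 0‖) * Y) +
        J * ((64 * CE * (1 + Real.log n) / (Real.pi * ε ^ 2)) *
        (3 ^ m * Kl / ε * X ^ 6 * Y * B)) + B * (Y * n) * (m * (16 * (1 + Real.log n) / n))))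
      ≤ CA * ((m + 1) * (Q₁ * ((1 + B) * X ^ 7 * Y) + Q₂ * ((1 + B) * X ^ 7 * Y) +
          Q₃ * ((1 + B) * X ^ 7 * Y))) := by
        gcongr
    _ = CA * ((m + 1) * (Q₁ + Q₂ + Q₃)) * (1 + B) * X ^ 7 * Y := by ring

end Pool.Agent.H194.MV
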