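import Pool.Agent.H194.MV.B1
import Pool.Graph.R_seed8.Helper772.MV.Area
import Pool.Graph.R_seed8.Helper202.Univ

set_option autoImplicit false

/-! # The local estimate: the mean of `|f'|` in a shadow, where `|f|` is at most `R` -/

namespace Pool.Agent.H194.MV

open Complex Metric Set Filter Topology MeasureTheory
open Pool.Agent.W677.Mar Pool.Agent.W5h41.MA
open scoped ENNReal

/-- disc automorphism -/
noncomputable def mob (w v : ℂ) : ℂ := (v + w) / (1 + (starRingEnd ℂ) w * v)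

theorem norm_lt_sq {w : ℂ} : ‖w‖ < 1 ↔ ‖w‖ ^ 2 < 1 := by
  constructor
  · intro h; nlinarith [norm_nonneg w]
  · intro h; nlinarith [norm_nonneg w]

theorem den_ne {w v : ℂ} (hw : ‖w‖ < 1) (hv : ‖v‖ < 1) : 1 + (starRingEnd ℂ) w * v ≠ 0 := by
  intro h
  have h1 : (starRingEnd ℂ) w * v = -1 := by linear_combination h
  have h2 : ‖w‖ * ‖v‖ = 1 := by
    have := congrArg norm h1
    rwa [norm_mul, RCLike.norm_conj, norm_neg, norm_one] at this
  nlinarith [norm_nonneg w, norm_nonneg v]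

/-- `(1 - |mob|²) |1 + conj w v|² = (1 - |w|²)(1 - |v|²)` -/
theorem mob_norm {w v : ℂ} (hw : ‖w‖ < 1) (hv : ‖v‖ < 1) :
    (1 - ‖mob w v‖ ^ 2) * ‖1 + (starRingEnd ℂ) w * v‖ ^ 2 = (1 - ‖w‖ ^ 2) * (1 - ‖v‖ ^ 2) := by
  have h0 := norm_pos_iff.2 (den_ne hw hv)
  unfold mob
  rw [norm_div]
  have e1 : ∀ A B : ℝ, 0 < A → (1 - (B / A) ^ 2) * A ^ 2 = A ^ 2 - B ^ 2 := by
    intro A B hA
    field_simp
  rw [e1 _ _ h0]
  simp only [← Complex.normSq_eq_norm_sq, Complex.normSq_apply]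
  simp
  ring

theorem mob_mem {w v : ℂ} (hw : ‖w‖ < 1) (hv : ‖v‖ < 1) : ‖mob w v‖ < 1 := by
  rw [norm_lt_sq]
  have h0 := norm_pos_iff.2 (den_ne hw hv)
  have h1 := mob_norm hw hv
  have h2 : 0 < (1 - ‖w‖ ^ 2) * (1 - ‖v‖ ^ 2) := by
    apply mul_pos
    · linarith [norm_lt_sq.1 hw]
    · linarith [norm_lt_sq.1 hv]
  by_contra hc
  push Not at hc
  have : (1 - ‖mob w v‖ ^ 2) * ‖1 + (starRingEnd ℂ) w * v‖ ^ 2 ≤ 0 :=
    mul_nonpos_of_nonpos_of_nonneg (by linarith) (by positivity)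
  linarith

/-- `(1 + conj w v)(1 - conj w mob) = 1 - |w|²` -/
theorem mob_den {w v : ℂ} (hw : ‖w‖ < 1) (hv : ‖v‖ < 1) :
    (1 + (starRingEnd ℂ) w * v) * (1 - (starRingEnd ℂ) w * mob w v) = ((1 - ‖w‖ ^ 2 : ℝ) : ℂ) := by
  have h0 := den_ne hw hv
  have h1 : (starRingEnd ℂ) w * w = ((‖w‖ ^ 2 : ℝ) : ℂ) := by
    rw [← Complex.normSq_eq_conj_mul_self, Complex.normSq_eq_norm_sq]
  unfold mob
  rw [Complex.ofReal_sub, ← h1, Complex.ofReal_one]
  field_simp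
  ring

theorem mob_deriv {w v : ℂ} (hw : ‖w‖ < 1) (hv : ‖v‖ < 1) :
    HasDerivAt (mob w) (((1 - ‖w‖ ^ 2 : ℝ) : ℂ) / (1 + (starRingEnd ℂ) w * v) ^ 2) v := by
  have h0 := den_ne hw hv
  have h1 : (starRingEnd ℂ) w * w = ((‖w‖ ^ 2 : ℝ) : ℂ) := by
    rw [← Complex.normSq_eq_conj_mul_self, Complex.normSq_eq_norm_sq]
  have h2 : HasDerivAt (fun v : ℂ => v + w) 1 v := (hasDerivAt_id v).add_const w
  have h3 : HasDerivAt (fun v : ℂ => 1 + (starRingEnd ℂ) w * v) ((starRingEnd ℂ) w) v := by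
    simpa using ((hasDerivAt_id v).const_mul ((starRingEnd ℂ) w)).const_add 1
  have h4 := h2.div h3 h0
  refine h4.congr_deriv ?_
  rw [Complex.ofReal_sub, ← h1, Complex.ofReal_one]
  congr 1
  ring

theorem mob_inv {w v : ℂ} (hw : ‖w‖ < 1) (hv : ‖v‖ < 1) : mob (-w) (mob w v) = v := by
  have h0 := den_ne hw hv
  have h1 : ((1 - ‖w‖ ^ 2 : ℝ) : ℂ) ≠ 0 := by
    have := norm_lt_sq.1 hw
    exact_mod_cast (by linarith : (1 - ‖w‖ ^ 2 : ℝ) ≠ 0)
  have h2 := mob_den hw hv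
  have h3 : 1 + (starRingEnd ℂ) (-w) * mob w v ≠ 0 := by
    intro h
    have : 1 - (starRingEnd ℂ) w * mob w v = 0 := by
      rw [map_neg] at h
      linear_combination h
    rw [this, mul_zero] at h2
    exact h1 h2.symm
  have h4 : (starRingEnd ℂ) w * w = ((‖w‖ ^ 2 : ℝ) : ℂ) := by
    rw [← Complex.normSq_eq_conj_mul_self, Complex.normSq_eq_norm_sq]
  rw [mob, div_eq_iff h3]
  rw [map_neg]
  unfold mob
  have e1 : ∀ D : ℂ, D ≠ 0 → D = 1 + (starRingEnd ℂ) w * v →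
      (v + w) / D + -w = v * (1 + -(starRingEnd ℂ) w * ((v + w) / D)) := by
    intro D hD hD2
    field_simp
    rw [hD2]
    ring
  exact e1 _ h0 rfl

theorem mob_inv' {w z : ℂ} (hw : ‖w‖ < 1) (hz : ‖z‖ < 1) : mob w (mob (-w) z) = z := by
  have := mob_inv (w := -w) (v := z) (by rwa [norm_neg]) hz
  rwa [neg_neg] at this

theorem mob_injOn {w : ℂ} (hw : ‖w‖ < 1) : InjOn (mob w) (ball 0 1) := by
  intro x hx y hy h
  rw [mem_ball_zero_iff] at hx hy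
  rw [← mob_inv hw hx, h, mob_inv hw hy]

theorem mob_measurable (w : ℂ) : Measurable (mob w) := by
  unfold mob
  fun_prop

theorem mob_zero (w : ℂ) : mob w 0 = w := by simp [mob]

theorem local_bound : ∃ C : ℝ, 0 < C ∧ ∀ f : ℂ → ℂ, DifferentiableOn ℂ f (ball 0 1) →
    InjOn f (ball 0 1) → ∀ w : ℂ, ‖w‖ < 1 → ∀ N : ℝ, 16 ≤ N * (1 - ‖w‖) → ∀ R : ℝ, ‖f w‖ ≤ R →
    ∀ E : Set ℂ, MeasurableSet E →
    (∀ z ∈ E, ‖z‖ ≤ 1 - 1 / N ∧ 1 - 2 / N ≤ ‖z‖ ∧ ‖f z‖ ≤ R ∧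
      ‖1 - (starRingEnd ℂ) w * z‖ ≤ 4 * (1 - ‖w‖)) →
    ∫⁻ z in E, ENNReal.ofReal ‖deriv f z‖ ≤
      ENNReal.ofReal (C * (R ^ 2 / ‖deriv f w‖) * (N * (1 - ‖w‖)) ^ (aa - 1)) := by
  obtain ⟨C, hC0, hC⟩ := annulus_exp
  refine ⟨128 * C, by positivity, fun f hf hi w hw N hN R hR E hE hEs => ?_⟩
  set δ : ℝ := 1 - ‖w‖ with hδ
  have hδ0 : 0 < δ := by linarith
  have hδ1 : δ ≤ 1 := by linarith [norm_nonneg w]
  have hN0 : 0 < N := by
    by_contra h
    push Not at h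
    nlinarith
  have hw2 : ‖w‖ ^ 2 < 1 := norm_lt_sq.1 hw
  have hδw : δ ≤ 1 - ‖w‖ ^ 2 := by nlinarith [norm_nonneg w]
  have hδw2 : 1 - ‖w‖ ^ 2 ≤ 2 * δ := by nlinarith [norm_nonneg w]
  have hEb : ∀ z ∈ E, ‖z‖ < 1 := fun z hz => by
    have h1 := (hEs z hz).1
    have : 0 < 1 / N := by positivity
    linarith
  have hderiv : ∀ z ∈ ball (0 : ℂ) 1, deriv f z ≠ 0 := fun z hz =>
    Pool.Agent.Helper202.Univ.deriv_ne_zero isOpen_ball hf hi hz
  have hwb : w ∈ ball (0 : ℂ) 1 := by rwa [mem_ball_zero_iff]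
  have hR0 : 0 ≤ R := (norm_nonneg _).trans hR
  -- the composed map
  set F : ℂ → ℂ := fun v => f (mob w v) with hF
  have hFder : ∀ v : ℂ, ‖v‖ < 1 → HasDerivAt F
      (deriv f (mob w v) * (((1 - ‖w‖ ^ 2 : ℝ) : ℂ) / (1 + (starRingEnd ℂ) w * v) ^ 2)) v := by
    intro v hv
    have h1 : HasDerivAt f (deriv f (mob w v)) (mob w v) :=
      (hf.differentiableAt (isOpen_ball.mem_nhds (by
        rw [mem_ball_zero_iff]; exact mob_mem hw hv))).hasDerivAt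
    exact h1.comp v (mob_deriv hw hv)
  have hFd : DifferentiableOn ℂ F (ball 0 1) := fun v hv =>
    (hFder v (mem_ball_zero_iff.1 hv)).differentiableAt.differentiableWithinAt
  have hFi : InjOn F (ball 0 1) := by
    intro x hx y hy h
    apply mob_injOn hw hx hy
    apply hi _ _ h
    · rw [mem_ball_zero_iff]; exact mob_mem hw (mem_ball_zero_iff.1 hx)
    · rw [mem_ball_zero_iff]; exact mob_mem hw (mem_ball_zero_iff.1 hy)
  have hFne : ∀ v ∈ ball (0 : ℂ) 1, deriv F v ≠ 0 := fun v hv =>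
    Pool.Agent.Helper202.Univ.deriv_ne_zero isOpen_ball hFd hFi hv
  have h0b : (0 : ℂ) ∈ ball (0 : ℂ) 1 := mem_ball_self one_pos
  obtain ⟨Y, H, S, hH⟩ := exists_Sg hFd hFi (hFne 0 h0b) hFne
  have hF0 : F 0 = f w := by simp only [hF]; rw [mob_zero]
  have hF0' : ‖deriv F 0‖ = ‖deriv f w‖ * (1 - ‖w‖ ^ 2) := by
    rw [(hFder 0 (by simp)).deriv, mob_zero, norm_mul]
    congr 1
    simp only [mul_zero, add_zero, one_pow, div_one]
    rw [Complex.norm_real, Real.norm_of_nonneg (by linarith)]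
  have hfw0 : 0 < ‖deriv f w‖ := norm_pos_iff.2 (hderiv w hwb)
  -- the set V
  set V : Set ℂ := ball (0 : ℂ) 1 ∩ mob w ⁻¹' E with hV
  have hVm : MeasurableSet V := measurableSet_ball.inter (mob_measurable w hE)
  have hEV : E ⊆ mob w '' V := by
    intro z hz
    have hz1 := hEb z hz
    refine ⟨mob (-w) z, ⟨?_, ?_⟩, mob_inv' hw hz1⟩
    · rw [mem_ball_zero_iff]
      exact mob_mem (by rwa [norm_neg]) hz1
    · show mob w (mob (-w) z) ∈ E
      rw [mob_inv' hw hz1]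
      exact hz
  have hcv : ∫⁻ z in mob w '' V, ENNReal.ofReal ‖deriv f z‖ = ∫⁻ v in V,
      ENNReal.ofReal (‖((1 - ‖w‖ ^ 2 : ℝ) : ℂ) / (1 + (starRingEnd ℂ) w * v) ^ 2‖ ^ 2) *
        ENNReal.ofReal ‖deriv f (mob w v)‖ := by
    rw [lintegral_image_eq_lintegral_abs_det_fderiv_mul volume hVm
      (f' := fun v => ContinuousLinearMap.mul ℝ ℂ
        (((1 - ‖w‖ ^ 2 : ℝ) : ℂ) / (1 + (starRingEnd ℂ) w * v) ^ 2))
      (fun v hv => (MeanVal.Area.af_hasFDerivAt _ v _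
        (mob_deriv hw (mem_ball_zero_iff.1 hv.1))).hasFDerivWithinAt)
      ((mob_injOn hw).mono inter_subset_left)]
    apply lintegral_congr
    intro v
    rw [MeanVal.Area.af_det, abs_of_nonneg (by positivity)]
  -- pointwise bound on V
  set X : ℝ := N * δ with hX
  have hX0 : 0 < X := by positivity
  have hpt : ∀ v ∈ V, (1 - 9 / X < ‖v‖ ∧ ‖v‖ < 1 - 1 / (64 * X)) ∧
      ‖((1 - ‖w‖ ^ 2 : ℝ) : ℂ) / (1 + (starRingEnd ℂ) w * v) ^ 2‖ ^ 2 * ‖deriv f (mob w v)‖ ≤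
        128 * (R ^ 2 / ‖deriv f w‖) * Real.exp (H v).re := by
    intro v hv
    have hv1 : ‖v‖ < 1 := mem_ball_zero_iff.1 hv.1
    obtain ⟨hz1, hz2, hz3, hz4⟩ := hEs _ hv.2
    set z := mob w v with hz
    have hzl : ‖z‖ < 1 := mob_mem hw hv1
    have hden := mob_den hw hv1
    have hdn := congrArg norm hden
    rw [norm_mul, Complex.norm_real, Real.norm_of_nonneg (by linarith), ← hz] at hdn
    set A := ‖1 + (starRingEnd ℂ) w * v‖ with hA
    set B := ‖1 - (starRingEnd ℂ) w * z‖ with hB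
    have hA0 : 0 < A := norm_pos_iff.2 (den_ne hw hv1)
    have hBl : δ ≤ B := by
      have h1 : ‖(starRingEnd ℂ) w * z‖ ≤ ‖w‖ := by
        rw [norm_mul, RCLike.norm_conj]
        nlinarith [norm_nonneg w, norm_nonneg z]
      have h2 := norm_sub_norm_le (1 : ℂ) ((starRingEnd ℂ) w * z)
      rw [norm_one] at h2
      rw [hδ, hB]
      linarith
    have hB0 : 0 < B := hδ0.trans_le hBl
    have hmn := mob_norm hw hv1
    rw [← hz, ← hA] at hmn
    -- 1 - |v|^2 = (1-|z|^2) A^2/(1-|w|^2) = (1 - |z|^2)(1-|w|^2)/B^2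
    have hvz : (1 - ‖v‖ ^ 2) * B ^ 2 = (1 - ‖z‖ ^ 2) * (1 - ‖w‖ ^ 2) := by
      have hA2 : A = (1 - ‖w‖ ^ 2) / B := by
        rw [eq_div_iff hB0.ne']; exact hdn
      rw [hA2] at hmn
      have h3 : (1 - ‖w‖ ^ 2) ≠ 0 := by linarith
      field_simp at hmn
      linarith
    have hzu : 1 / N ≤ 1 - ‖z‖ ^ 2 := by nlinarith [norm_nonneg z]
    have hzo : 1 - ‖z‖ ^ 2 ≤ 4 / N := by
      have : 1 - ‖z‖ ≤ 2 / N := by linarith
      have h4 : (4 : ℝ) / N = 2 * (2 / N) := by ring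
      rw [h4]
      nlinarith [norm_nonneg z]
    have hlow : 1 / (16 * X) ≤ 1 - ‖v‖ ^ 2 := by
      have h1 : 1 / N * δ ≤ (1 - ‖v‖ ^ 2) * B ^ 2 := by
        rw [hvz]
        exact mul_le_mul hzu hδw hδ0.le (by
          have : 0 < 1 / N := by positivity
          linarith)
      have h2 : B ^ 2 ≤ 16 * δ ^ 2 := by nlinarith
      have h3 : 0 ≤ 1 - ‖v‖ ^ 2 := by linarith [norm_lt_sq.1 hv1]
      have h4 : 1 / N * δ ≤ (1 - ‖v‖ ^ 2) * (16 * δ ^ 2) :=
        h1.trans (mul_le_mul_of_nonneg_left h2 h3)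
      rw [div_le_iff₀ (by positivity)]
      have h5 : 1 / N * δ * (N / δ) = 1 := by field_simp
      have h6 := mul_le_mul_of_nonneg_right h4 (by positivity : 0 ≤ N / δ)
      rw [h5] at h6
      have h7 : (1 - ‖v‖ ^ 2) * (16 * δ ^ 2) * (N / δ) = (1 - ‖v‖ ^ 2) * (16 * X) := by
        rw [hX]; field_simp
      rw [h7] at h6
      exact h6
    have hup : 1 - ‖v‖ ^ 2 ≤ 8 / X := by
      have h1 : (1 - ‖v‖ ^ 2) * δ ^ 2 ≤ 4 / N * (2 * δ) := by
        have h3 : 0 ≤ 1 - ‖v‖ ^ 2 := by linarith [norm_lt_sq.1 hv1]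
        calc (1 - ‖v‖ ^ 2) * δ ^ 2 ≤ (1 - ‖v‖ ^ 2) * B ^ 2 := by
              apply mul_le_mul_of_nonneg_left _ h3
              nlinarith
          _ = (1 - ‖z‖ ^ 2) * (1 - ‖w‖ ^ 2) := hvz
          _ ≤ 4 / N * (2 * δ) := mul_le_mul hzo hδw2 (by linarith) (by positivity)
      rw [le_div_iff₀ hX0]
      have h5 := mul_le_mul_of_nonneg_right h1 (by positivity : 0 ≤ N / δ)
      have h6 : (1 - ‖v‖ ^ 2) * δ ^ 2 * (N / δ) = (1 - ‖v‖ ^ 2) * X := by
        rw [hX]; field_simp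
      have h7 : 4 / N * (2 * δ) * (N / δ) = 8 := by field_simp; ring
      rw [h6, h7] at h5
      exact h5
    have hhalf : 1 / 2 ≤ ‖v‖ ^ 2 := by
      have : 8 / X ≤ 1 / 2 := by rw [div_le_iff₀ hX0]; linarith
      linarith
    refine ⟨⟨?_, ?_⟩, ?_⟩
    · have h1 : 1 - ‖v‖ ≤ 8 / X := by nlinarith [norm_nonneg v]
      have h2 : 8 / X < 9 / X := by
        apply div_lt_div_of_pos_right _ hX0; norm_num
      linarith
    · have h1 : (1 - ‖v‖) * 2 ≥ 1 / (16 * X) := by nlinarith [norm_nonneg v]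
      have h2 : 1 / (16 * X) = 4 * (1 / (64 * X)) := by field_simp; norm_num
      have h3 : 0 < 1 / (64 * X) := by positivity
      linarith
    · -- the derivative
      have hv0 : v ≠ 0 := by
        intro h
        rw [h, norm_zero] at hhalf
        norm_num at hhalf
      have hvb : v ∈ ball (0 : ℂ) 1 := hv.1
      have h1 := congrArg norm (hH v hvb hv0)
      rw [Complex.norm_exp, norm_div, norm_mul, norm_mul, norm_pow, norm_pow, hF0'] at h1
      set D := ‖((1 - ‖w‖ ^ 2 : ℝ) : ℂ) / (1 + (starRingEnd ℂ) w * v) ^ 2‖ with hD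
      have hFv : ‖deriv F v‖ = ‖deriv f z‖ * D := by
        rw [(hFder v hv1).deriv, norm_mul]
      have hFF : 0 < ‖F v - F 0‖ := by
        rw [norm_pos_iff, sub_ne_zero]
        intro h
        exact hv0 (hFi hvb h0b h)
      have hFF2 : ‖F v - F 0‖ ≤ 2 * R := by
        refine (norm_sub_le _ _).trans ?_
        rw [hF0]
        have : ‖F v‖ ≤ R := hz3
        linarith
      have hDle : D ≤ 16 * δ := by
        rw [hD, norm_div, norm_pow, Complex.norm_real, Real.norm_of_nonneg (by linarith), ← hA]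
        rw [div_le_iff₀ (by positivity)]
        have h3 : (1 - ‖w‖ ^ 2) ^ 2 = A ^ 2 * B ^ 2 := by rw [← hdn]; ring
        have h4 : B ^ 2 ≤ 16 * δ ^ 2 := by nlinarith
        have h5 : (1 - ‖w‖ ^ 2) ^ 2 ≤ A ^ 2 * (16 * δ ^ 2) := by
          rw [h3]; exact mul_le_mul_of_nonneg_left h4 (by positivity)
        have h6 : (1 - ‖w‖ ^ 2) * δ ≤ (1 - ‖w‖ ^ 2) ^ 2 := by nlinarith
        have h7 : (1 - ‖w‖ ^ 2) * δ ≤ (16 * δ * A ^ 2) * δ := by
          calc _ ≤ _ := h6.trans h5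
            _ = _ := by ring
        exact le_of_mul_le_mul_right h7 hδ0
      have hD0 : 0 ≤ D := norm_nonneg _
      -- main computation
      have h8 : ‖deriv f z‖ * D = Real.exp (H v).re * ‖F v - F 0‖ ^ 2 /
          (‖deriv f w‖ * (1 - ‖w‖ ^ 2) * ‖v‖ ^ 2) := by
        rw [h1, hFv]
        have h9 : (1 - ‖w‖ ^ 2) ≠ 0 := by linarith
        have h10 : ‖v‖ ≠ 0 := norm_ne_zero_iff.2 hv0
        field_simp
      have h11 : ‖deriv f z‖ * D ≤ Real.exp (H v).re * (8 * R ^ 2) / (‖deriv f w‖ * δ) := by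
        rw [h8]
        rw [div_le_div_iff₀ (by
          apply mul_pos (mul_pos hfw0 (by linarith)) (by linarith)) (by positivity)]
        have he := Real.exp_pos (H v).re
        have h12 : ‖F v - F 0‖ ^ 2 ≤ 4 * R ^ 2 := by nlinarith
        have h13 : δ * (1 / 2) ≤ (1 - ‖w‖ ^ 2) * ‖v‖ ^ 2 :=
          mul_le_mul hδw hhalf (by norm_num) (by linarith)
        calc Real.exp (H v).re * ‖F v - F 0‖ ^ 2 * (‖deriv f w‖ * δ)
            ≤ Real.exp (H v).re * (4 * R ^ 2) * (‖deriv f w‖ * δ) := by gcongr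
          _ = Real.exp (H v).re * (8 * R ^ 2) * (‖deriv f w‖ * (δ * (1 / 2))) := by ring
          _ ≤ Real.exp (H v).re * (8 * R ^ 2) * (‖deriv f w‖ * ((1 - ‖w‖ ^ 2) * ‖v‖ ^ 2)) := by
              gcongr
          _ = _ := by ring
      calc D ^ 2 * ‖deriv f z‖ = D * (‖deriv f z‖ * D) := by ring
        _ ≤ (16 * δ) * (Real.exp (H v).re * (8 * R ^ 2) / (‖deriv f w‖ * δ)) := by
            apply mul_le_mul hDle h11 (by positivity) (by positivity)
        _ = 128 * (R ^ 2 / ‖deriv f w‖) * Real.exp (H v).re := by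
            field_simp
            ring
  calc ∫⁻ z in E, ENNReal.ofReal ‖deriv f z‖ ≤ ∫⁻ z in mob w '' V, ENNReal.ofReal ‖deriv f z‖ :=
        lintegral_mono_set hEV
    _ = _ := hcv
    _ ≤ ∫⁻ v in V, ENNReal.ofReal (128 * (R ^ 2 / ‖deriv f w‖)) *
          ENNReal.ofReal (Real.exp (H v).re) := by
        apply setLIntegral_mono' hVm
        intro v hv
        rw [← ENNReal.ofReal_mul (by positivity), ← ENNReal.ofReal_mul (by positivity)]
        exact ENNReal.ofReal_le_ofReal (hpt v hv).2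
    _ ≤ ∫⁻ v in {v : ℂ | 1 - 9 / X < ‖v‖ ∧ ‖v‖ < 1 - 1 / (64 * X)},
          ENNReal.ofReal (128 * (R ^ 2 / ‖deriv f w‖)) * ENNReal.ofReal (Real.exp (H v).re) :=
        lintegral_mono_set fun v hv => (hpt v hv).1
    _ = ENNReal.ofReal (128 * (R ^ 2 / ‖deriv f w‖)) *
          ∫⁻ v in {v : ℂ | 1 - 9 / X < ‖v‖ ∧ ‖v‖ < 1 - 1 / (64 * X)},
            ENNReal.ofReal (Real.exp (H v).re) :=
        lintegral_const_mul' _ _ ENNReal.ofReal_ne_top
    _ ≤ ENNReal.ofReal (128 * (R ^ 2 / ‖deriv f w‖)) * ENNReal.ofReal (C * X ^ (aa - 1)) := by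
        gcongr
        exact hC Y H S X hN
    _ = _ := by
        rw [← ENNReal.ofReal_mul (by positivity)]
        congr 1
        ring

end Pool.Agent.H194.MV
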