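import Mathlib
import Pool.Graph.R_seed8.Helper772.MV.Ray
import Pool.Agent.H194.MV.B3

set_option autoImplicit false

/-! # Good points on a ray, and maximal separated families -/

namespace Pool.Agent.H194.MV

open Complex Metric Set Filter Topology MeasureTheory
open scoped ENNReal

/-- growth along a path -/
theorem path_growth {u : ℝ → ℝ} {a b C : ℝ} (hab : a ≤ b) (hb : b < 1)
    (hd : ∀ x ∈ Icc a b, ∃ d, HasDerivAt u d x ∧ |d| * (1 - x) ≤ C) :
    u b - u a ≤ C * (Real.log (1 - a) - Real.log (1 - b)) := by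
  choose! d hd1 hd2 using hd
  have hlog : ∀ x ∈ Icc a b, HasDerivAt (fun x => Real.log (1 - x)) (-1 / (1 - x)) x := by
    intro x hx
    have h1 : HasDerivAt (fun x : ℝ => 1 - x) (-1) x := by
      simpa using (hasDerivAt_id x).const_sub 1
    exact h1.log (by linarith [hx.2])
  have hanti : AntitoneOn (fun x => u x + C * Real.log (1 - x)) (Icc a b) := by
    apply antitoneOn_of_deriv_nonpos (convex_Icc a b)
    · intro x hx
      exact ((hd1 x hx).add ((hlog x hx).const_mul C)).continuousAt.continuousWithinAt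
    · intro x hx
      rw [interior_Icc] at hx
      exact ((hd1 x (Ioo_subset_Icc_self hx)).add
        ((hlog x (Ioo_subset_Icc_self hx)).const_mul C)).differentiableAt.differentiableWithinAt
    · intro x hx
      rw [interior_Icc] at hx
      have hx' := Ioo_subset_Icc_self hx
      have hdd : HasDerivAt (fun x => u x + C * Real.log (1 - x)) (d x + C * (-1 / (1 - x))) x :=
        (hd1 x hx').add ((hlog x hx').const_mul C)
      rw [hdd.deriv]
      have h1 : 0 < 1 - x := by linarith [hx.2]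
      have h2 := hd2 x hx'
      have h3 : d x ≤ C / (1 - x) := by
        rw [le_div_iff₀ h1]
        exact (mul_le_mul_of_nonneg_right (le_abs_self _) h1.le).trans h2
      have h4 : C * (-1 / (1 - x)) = -(C / (1 - x)) := by ring
      rw [h4]
      linarith
  have h1 := hanti (left_mem_Icc.2 hab) (right_mem_Icc.2 hab) hab
  simp only at h1
  linarith

/-- a good point on a path -/
theorem path_good {u g : ℝ → ℝ} {a b α β κ : ℝ} (hab : a ≤ b) (hb : b < 1) (hκ : 0 ≤ κ)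
    (hd : ∀ x ∈ Icc a b, ∃ d, HasDerivAt u d x ∧ |d| ≤ g x)
    (ha : u a ≤ α) (hαβ : α < β) (hb2 : β ≤ u b)
    (hk : κ * (Real.log (1 - a) - Real.log (1 - b)) < β - α) :
    ∃ x ∈ Icc a b, α ≤ u x ∧ u x ≤ β ∧ κ ≤ g x * (1 - x) := by
  by_contra hcon
  push Not at hcon
  have hv : ContinuousOn u (Icc a b) := fun t ht => by
    obtain ⟨d, hd, _⟩ := hd t ht
    exact hd.continuousAt.continuousWithinAt
  have hScl : IsClosed (Icc a b ∩ u ⁻¹' (Ici β)) := hv.preimage_isClosed_of_isClosed isClosed_Icc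
    isClosed_Ici
  have hSne : (Icc a b ∩ u ⁻¹' (Ici β)).Nonempty := ⟨b, ⟨hab, le_rfl⟩, hb2⟩
  have hSbd : BddBelow (Icc a b ∩ u ⁻¹' (Ici β)) := ⟨a, fun t ht => ht.1.1⟩
  obtain ⟨t2, ht2S, ht2min⟩ : ∃ t2, t2 ∈ (Icc a b ∩ u ⁻¹' (Ici β)) ∧
      ∀ t ∈ (Icc a b ∩ u ⁻¹' (Ici β)), t2 ≤ t :=
    ⟨_, hScl.csInf_mem hSne hSbd, fun t ht => csInf_le hSbd ht⟩
  have hv2 : ContinuousOn u (Icc a t2) := hv.mono (Icc_subset_Icc le_rfl ht2S.1.2)
  have hTcl : IsClosed (Icc a t2 ∩ u ⁻¹' (Iic α)) := hv2.preimage_isClosed_of_isClosed isClosed_Icc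
    isClosed_Iic
  have hTne : (Icc a t2 ∩ u ⁻¹' (Iic α)).Nonempty := ⟨a, ⟨le_rfl, ht2S.1.1⟩, ha⟩
  have hTbd : BddAbove (Icc a t2 ∩ u ⁻¹' (Iic α)) := ⟨t2, fun t ht => ht.1.2⟩
  obtain ⟨t1, ht1S, ht1max⟩ : ∃ t1, t1 ∈ (Icc a t2 ∩ u ⁻¹' (Iic α)) ∧
      ∀ t ∈ (Icc a t2 ∩ u ⁻¹' (Iic α)), t ≤ t1 :=
    ⟨_, hTcl.csSup_mem hTne hTbd, fun t ht => le_csSup hTbd ht⟩
  have h2 : β ≤ u t2 := ht2S.2
  have h1 : u t1 ≤ α := ht1S.2
  have h12 : t1 ≤ t2 := ht1S.1.2
  have hsub : Icc t1 t2 ⊆ Icc a b := Icc_subset_Icc ht1S.1.1 ht2S.1.2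
  have hin : ∀ t ∈ Ioo t1 t2, α ≤ u t ∧ u t ≤ β := by
    intro t ht
    have hta : a ≤ t := ht1S.1.1.trans ht.1.le
    have htb : t ≤ b := ht.2.le.trans ht2S.1.2
    constructor
    · by_contra hc
      push Not at hc
      have := ht1max t ⟨⟨hta, ht.2.le⟩, hc.le⟩
      linarith [ht.1]
    · by_contra hc
      push Not at hc
      have := ht2min t ⟨⟨hta, htb⟩, hc.le⟩
      linarith [ht.2]
  choose! d hd1 hd2 using hd
  have hlog : ∀ x ∈ Icc a b, HasDerivAt (fun x => Real.log (1 - x)) (-1 / (1 - x)) x := by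
    intro x hx
    have h1 : HasDerivAt (fun x : ℝ => 1 - x) (-1) x := by
      simpa using (hasDerivAt_id x).const_sub 1
    exact h1.log (by linarith [hx.2])
  have hanti : AntitoneOn (fun x => u x + κ * Real.log (1 - x)) (Icc t1 t2) := by
    apply antitoneOn_of_deriv_nonpos (convex_Icc t1 t2)
    · intro x hx
      exact ((hd1 x (hsub hx)).add ((hlog x (hsub hx)).const_mul κ)).continuousAt.continuousWithinAt
    · intro x hx
      rw [interior_Icc] at hx
      have hx' := hsub (Ioo_subset_Icc_self hx)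
      exact ((hd1 x hx').add
        ((hlog x hx').const_mul κ)).differentiableAt.differentiableWithinAt
    · intro x hx
      rw [interior_Icc] at hx
      have hx' := hsub (Ioo_subset_Icc_self hx)
      have hdd : HasDerivAt (fun x => u x + κ * Real.log (1 - x)) (d x + κ * (-1 / (1 - x))) x :=
        (hd1 x hx').add ((hlog x hx').const_mul κ)
      rw [hdd.deriv]
      have h1 : 0 < 1 - x := by linarith [hx'.2]
      have h2 := hcon x hx' (hin x hx).1 (hin x hx).2
      have h3 : d x ≤ κ / (1 - x) := by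
        rw [le_div_iff₀ h1]
        exact (mul_le_mul_of_nonneg_right ((le_abs_self _).trans (hd2 x hx')) h1.le).trans h2.le
      have h4 : κ * (-1 / (1 - x)) = -(κ / (1 - x)) := by ring
      rw [h4]
      linarith
  have h3 := hanti (left_mem_Icc.2 h12) (right_mem_Icc.2 h12) h12
  simp only at h3
  have h4 : Real.log (1 - t1) ≤ Real.log (1 - a) :=
    Real.log_le_log (by linarith [ht2S.1.2]) (by linarith [ht1S.1.1])
  have h5 : Real.log (1 - b) ≤ Real.log (1 - t2) :=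
    Real.log_le_log (by linarith) (by linarith [ht2S.1.2])
  have h6 : κ * (Real.log (1 - t1) - Real.log (1 - t2)) ≤
      κ * (Real.log (1 - a) - Real.log (1 - b)) :=
    mul_le_mul_of_nonneg_left (by linarith) hκ
  linarith

/-- maximal separated families -/
theorem exists_cover (W : Set ℂ) (M : ℕ) (hM : ∀ S : Finset ℂ, (∀ w ∈ S, w ∈ W) →
      (S : Set ℂ).PairwiseDisjoint (fun w => ball w ((1 - ‖w‖) / 8)) → S.card ≤ M)
    (hW : ∀ w ∈ W, ‖w‖ < 1) :
    ∃ S : Finset ℂ, (∀ w ∈ S, w ∈ W) ∧ S.card ≤ M ∧ ∀ w ∈ W, ∃ v ∈ S,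
      ‖w - v‖ ≤ ((1 - ‖w‖) + (1 - ‖v‖)) / 8 := by
  classical
  set K : Set ℕ := {k | ∃ S : Finset ℂ, (∀ w ∈ S, w ∈ W) ∧
    (S : Set ℂ).PairwiseDisjoint (fun w => ball w ((1 - ‖w‖) / 8)) ∧ S.card = k} with hK
  have hKne : K.Nonempty := ⟨0, ∅, by simp, by simp, rfl⟩
  have hKb : BddAbove K := ⟨M, by
    rintro k ⟨S, h1, h2, rfl⟩
    exact hM S h1 h2⟩
  obtain ⟨S, hS1, hS2, hS3⟩ := Nat.sSup_mem hKne hKb
  refine ⟨S, hS1, hM S hS1 hS2, ?_⟩
  intro w hw
  by_cases hwS : w ∈ S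
  · refine ⟨w, hwS, ?_⟩
    rw [sub_self, norm_zero]
    have := hW w hw
    linarith
  by_contra hcon
  push Not at hcon
  have hd : ((insert w S : Finset ℂ) : Set ℂ).PairwiseDisjoint (fun w => ball w ((1 - ‖w‖) / 8)) := by
    rw [Finset.coe_insert, Set.pairwiseDisjoint_insert]
    refine ⟨hS2, fun v hv _ => ?_⟩
    rw [Set.disjoint_left]
    intro p hp1 hp2
    have h1 := hcon v hv
    rw [mem_ball] at hp1 hp2
    have h2 := dist_triangle_left w v p
    rw [dist_eq_norm w v] at h2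
    linarith
  have h1 : (insert w S).card ∈ K := ⟨insert w S, by
    intro v hv
    rcases Finset.mem_insert.1 hv with h | h
    · rw [h]; exact hw
    · exact hS1 v h, hd, rfl⟩
  have h2 := le_csSup hKb h1
  rw [Finset.card_insert_of_notMem hwS, hS3] at h2
  omega

end Pool.Agent.H194.MV
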