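import Mathlib
import Pool.Graph.R_seed8.Helper772.MV.CoeffEst
import Pool.Graph.R_seed8.Helper772.MV.Cross

set_option autoImplicit false

/-! # The integral of `1 / |z - ζ|` over a thin annulus -/

namespace Pool.Agent.H194.MV

open Complex Metric Set Filter Topology MeasureTheory
open scoped ENNReal

theorem dist_one_lower {ρ x θ : ℝ} (hx : 0 < x) (hρ : 1 / 2 ≤ ρ) (hρx : x ≤ 1 - ρ)
    (hθ : |θ| ≤ Real.pi) : (x + |θ|) / 4 ≤ ‖(ρ : ℂ) * Complex.exp (θ * Complex.I) - 1‖ := by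
  have h1 : ‖(ρ : ℂ) * Complex.exp (θ * Complex.I) - 1‖ ^ 2 =
      (1 - ρ) ^ 2 + 2 * ρ * (1 - Real.cos θ) := by
    rw [← Complex.normSq_eq_norm_sq, Complex.exp_mul_I, ← Complex.ofReal_cos, ← Complex.ofReal_sin]
    have e1 : (ρ : ℂ) * ((Real.cos θ : ℂ) + (Real.sin θ : ℂ) * Complex.I) - 1 =
        ((ρ * Real.cos θ - 1 : ℝ) : ℂ) + ((ρ * Real.sin θ : ℝ) : ℂ) * Complex.I := by
      push_cast
      ring
    rw [e1, Complex.normSq_add_mul_I]
    have := Real.sin_sq_add_cos_sq θ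
    linear_combination ρ ^ 2 * this
  have h2 := Real.cos_le_one_sub_mul_cos_sq hθ
  have hpi : Real.pi ^ 2 < 10 := by
    have := Real.pi_lt_d2
    have := Real.pi_pos
    nlinarith
  have h3 : θ ^ 2 / 5 ≤ 2 / Real.pi ^ 2 * θ ^ 2 := by
    rw [div_mul_eq_mul_div, div_le_div_iff₀ (by norm_num) (by positivity)]
    nlinarith [sq_nonneg θ]
  have h4 : x ^ 2 + θ ^ 2 / 5 ≤ ‖(ρ : ℂ) * Complex.exp (θ * Complex.I) - 1‖ ^ 2 := by
    rw [h1]
    have h5 : 0 ≤ 1 - Real.cos θ := by linarith [Real.cos_le_one θ]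
    nlinarith
  have h5 : ((x + |θ|) / 4) ^ 2 ≤ ‖(ρ : ℂ) * Complex.exp (θ * Complex.I) - 1‖ ^ 2 := by
    refine le_trans ?_ h4
    have := sq_abs θ
    nlinarith [sq_nonneg (x - |θ|), sq_nonneg x, sq_nonneg θ]
  exact le_of_sq_le_sq h5 (norm_nonneg _)
where
  le_of_sq_le_sq {a b : ℝ} (h : a ^ 2 ≤ b ^ 2) (hb : 0 ≤ b) : a ≤ b := abs_le_of_sq_le_sq' h hb |>.2

theorem theta_int {x : ℝ} (hx : 0 < x) :
    ∫ θ in (-Real.pi)..Real.pi, 4 / (x + |θ|) = 8 * Real.log ((x + Real.pi) / x) := by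
  have hcont : Continuous fun θ : ℝ => 4 / (x + |θ|) := by
    apply Continuous.div continuous_const (by fun_prop)
    intro θ
    have := abs_nonneg θ
    positivity
  have h1 : ∫ θ in (0:ℝ)..Real.pi, 4 / (x + |θ|) = 4 * Real.log ((x + Real.pi) / x) := by
    have h2 : ∫ θ in (0:ℝ)..Real.pi, 4 / (x + |θ|) = ∫ θ in (0:ℝ)..Real.pi, 4 / (x + θ) := by
      apply intervalIntegral.integral_congr
      intro θ hθ
      rw [uIcc_of_le Real.pi_pos.le] at hθ
      simp only [abs_of_nonneg hθ.1]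
    rw [h2]
    have h3 : ∀ θ ∈ uIcc 0 Real.pi, HasDerivAt (fun θ => 4 * Real.log (x + θ)) (4 / (x + θ)) θ := by
      intro θ hθ
      rw [uIcc_of_le Real.pi_pos.le] at hθ
      have h4 : HasDerivAt (fun θ : ℝ => x + θ) 1 θ := by
        simpa using (hasDerivAt_id θ).const_add x
      have h5 := (h4.log (by linarith [hθ.1])).const_mul 4
      refine h5.congr_deriv ?_
      ring
    rw [intervalIntegral.integral_eq_sub_of_hasDerivAt h3]
    · rw [add_zero, Real.log_div (by linarith [Real.pi_pos]) hx.ne']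
      ring
    · apply ContinuousOn.intervalIntegrable
      intro θ hθ
      rw [uIcc_of_le Real.pi_pos.le] at hθ
      have : x + θ ≠ 0 := by linarith [hθ.1]
      exact ContinuousAt.continuousWithinAt (by fun_prop (disch := assumption))
  have h2 : ∫ θ in (-Real.pi)..(0:ℝ), 4 / (x + |θ|) = ∫ θ in (0:ℝ)..Real.pi, 4 / (x + |θ|) := by
    have := intervalIntegral.integral_comp_neg (a := (0:ℝ)) (b := Real.pi)
      (fun θ : ℝ => 4 / (x + |θ|))
    simp only [abs_neg, neg_zero] at this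
    exact this.symm
  rw [← intervalIntegral.integral_add_adjacent_intervals (b := 0)
    (hcont.intervalIntegrable _ _) (hcont.intervalIntegrable _ _), h2, h1]
  ring

theorem theta_lint {x : ℝ} (hx : 0 < x) :
    ∫⁻ θ in Ioo (-Real.pi) Real.pi, ENNReal.ofReal (4 / (x + |θ|)) =
      ENNReal.ofReal (8 * Real.log ((x + Real.pi) / x)) := by
  have hcont : Continuous fun θ : ℝ => 4 / (x + |θ|) := by
    apply Continuous.div continuous_const (by fun_prop)
    intro θ
    have := abs_nonneg θ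
    positivity
  rw [← ofReal_integral_eq_lintegral_ofReal, ← theta_int hx,
    intervalIntegral.integral_of_le (by linarith [Real.pi_pos]), integral_Ioc_eq_integral_Ioo]
  · exact (hcont.integrableOn_Icc (a := -Real.pi) (b := Real.pi)).mono_set Ioo_subset_Icc_self
  · exact Filter.Eventually.of_forall (fun θ => by
      have := abs_nonneg θ
      show 0 ≤ 4 / (x + |θ|)
      positivity)

theorem pole_one {n : ℕ} (hn : 4 ≤ n) :
    ∫⁻ z in {z : ℂ | 1 - 2 / (n:ℝ) < ‖z‖ ∧ ‖z‖ < 1 - 1 / (n:ℝ)}, ENNReal.ofReal (1 / ‖z - 1‖) ≤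
      ENNReal.ofReal (16 * (1 + Real.log n) / n) := by
  have hn4 : (4:ℝ) ≤ n := by exact_mod_cast hn
  have hn0 : (0:ℝ) < n := by linarith
  have hlo : (1:ℝ)/2 ≤ 1 - 2/(n:ℝ) := by
    rw [le_sub_iff_add_le, ← le_sub_iff_add_le', div_le_iff₀ hn0]
    linarith
  have hlogn : 0 ≤ Real.log n := Real.log_nonneg (by linarith)
  have hb := MeanVal.CoeffEst.polar_bound (fun z => ((Real.sqrt (1 / ‖z - 1‖) : ℝ) : ℂ))
    (1 - 2 / n) (1 - 1 / n) (16 * (1 + Real.log n)) (by linarith) (by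
      have : 1 / (n:ℝ) ≤ 2 / n := by
        apply div_le_div_of_nonneg_right (by norm_num) hn0.le
      linarith) (by
      have : 0 < 1 / (n:ℝ) := by positivity
      linarith) (by positivity) (fun ρ hρ1 hρ2 => ?_)
  · have e1 : ∀ z : ℂ, ‖((Real.sqrt (1 / ‖z - 1‖) : ℝ) : ℂ)‖ ^ 2 = 1 / ‖z - 1‖ := by
      intro z
      rw [Complex.norm_real, Real.norm_of_nonneg (Real.sqrt_nonneg _), Real.sq_sqrt (by positivity)]
    simp only [e1] at hb
    refine hb.trans (le_of_eq ?_)
    congr 1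
    field_simp
    ring
  · have e1 : ∀ z : ℂ, ‖((Real.sqrt (1 / ‖z - 1‖) : ℝ) : ℂ)‖ ^ 2 = 1 / ‖z - 1‖ := by
      intro z
      rw [Complex.norm_real, Real.norm_of_nonneg (Real.sqrt_nonneg _), Real.sq_sqrt (by positivity)]
    simp only [e1]
    have hx : 0 < 1 / (n:ℝ) := by positivity
    calc ∫⁻ θ in Ioo (-Real.pi) Real.pi,
          ENNReal.ofReal (1 / ‖(ρ : ℂ) * Complex.exp (θ * Complex.I) - 1‖)
        ≤ ∫⁻ θ in Ioo (-Real.pi) Real.pi, ENNReal.ofReal (4 / (1 / (n:ℝ) + |θ|)) := by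
          apply setLIntegral_mono' measurableSet_Ioo
          intro θ hθ
          apply ENNReal.ofReal_le_ofReal
          have h1 := dist_one_lower (ρ := ρ) hx (by linarith) (by linarith)
            (abs_le.2 ⟨hθ.1.le, hθ.2.le⟩)
          have h2 := abs_nonneg θ
          have h3 : (4:ℝ) / (1 / (n:ℝ) + |θ|) = 1 / ((1 / (n:ℝ) + |θ|) / 4) := by
            field_simp
          rw [h3]
          exact one_div_le_one_div_of_le (by positivity) h1
      _ = ENNReal.ofReal (8 * Real.log ((1 / (n:ℝ) + Real.pi) / (1 / (n:ℝ)))) := theta_lint hx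
      _ ≤ _ := by
          apply ENNReal.ofReal_le_ofReal
          have h1 : (1 / (n:ℝ) + Real.pi) / (1 / (n:ℝ)) = 1 + n * Real.pi := by
            field_simp
          rw [h1]
          have h2 : 1 + n * Real.pi ≤ n * Real.exp 2 := by
            have h3 := Real.pi_lt_d2
            have h4 : (7:ℝ) ≤ Real.exp 2 := by
              have := Real.exp_one_gt_d9
              have h5 : Real.exp 2 = Real.exp 1 * Real.exp 1 := by rw [← Real.exp_add]; norm_num
              rw [h5]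
              nlinarith
            nlinarith
          have h3 := Real.log_le_log (by positivity) h2
          rw [Real.log_mul hn0.ne' (Real.exp_pos 2).ne', Real.log_exp] at h3
          linarith

theorem pole_annulus {ζ : ℂ} (hζ : ‖ζ‖ = 1) {n : ℕ} (hn : 4 ≤ n) :
    ∫⁻ z in {z : ℂ | 1 - 2 / (n:ℝ) < ‖z‖ ∧ ‖z‖ < 1 - 1 / (n:ℝ)}, ENNReal.ofReal (1 / ‖z - ζ‖) ≤
      ENNReal.ofReal (16 * (1 + Real.log n) / n) := by
  refine le_trans (le_of_eq ?_) (pole_one hn)
  set A : Set ℂ := {z : ℂ | 1 - 2 / (n:ℝ) < ‖z‖ ∧ ‖z‖ < 1 - 1 / (n:ℝ)} with hA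
  have hAm : MeasurableSet A := by
    apply MeasurableSet.inter
    · exact measurableSet_lt measurable_const measurable_norm
    · exact measurableSet_lt measurable_norm measurable_const
  set F : ℂ → ℝ≥0∞ := fun q => A.indicator (fun z => ENNReal.ofReal (1 / ‖z - 1‖)) (1 - q) with hF
  have hFm : Measurable F := by
    apply Measurable.comp (g := A.indicator (fun z => ENNReal.ofReal (1 / ‖z - 1‖)))
    · apply Measurable.indicator _ hAm
      fun_prop
    · fun_prop
  have h1 := MeanVal.Cross.trans_9943 ζ hζ F hFm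
  have h2 := MeanVal.Cross.trans_9943 1 (by simp) F hFm
  rw [← lintegral_indicator hAm, ← lintegral_indicator hAm]
  have e1 : ∫⁻ w : ℂ, F (1 - (starRingEnd ℂ) ζ * w) =
      ∫⁻ z, A.indicator (fun z => ENNReal.ofReal (1 / ‖z - ζ‖)) z := by
    apply lintegral_congr
    intro z
    have hnz : ‖(starRingEnd ℂ) ζ * z‖ = ‖z‖ := by
      rw [norm_mul, RCLike.norm_conj, hζ, one_mul]
    have hnz2 : ‖(starRingEnd ℂ) ζ * z - 1‖ = ‖z - ζ‖ := by
      have h3 : (starRingEnd ℂ) ζ * z - 1 = (starRingEnd ℂ) ζ * (z - ζ) := by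
        have h4 : (starRingEnd ℂ) ζ * ζ = 1 := by
          rw [← Complex.normSq_eq_conj_mul_self, Complex.normSq_eq_norm_sq, hζ]
          simp
        rw [mul_sub, h4]
      rw [h3, norm_mul, RCLike.norm_conj, hζ, one_mul]
    simp only [hF, sub_sub_cancel]
    by_cases hz : z ∈ A
    · have hz' : (starRingEnd ℂ) ζ * z ∈ A := by
        simp only [hA, mem_ofPred_eq, hnz]
        exact hz
      rw [indicator_of_mem hz, indicator_of_mem hz', hnz2]
    · have hz' : (starRingEnd ℂ) ζ * z ∉ A := by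
        intro h
        apply hz
        simp only [hA, mem_ofPred_eq, hnz] at h
        exact h
      rw [indicator_of_notMem hz, indicator_of_notMem hz']
  have e2 : ∫⁻ w : ℂ, F (1 - (starRingEnd ℂ) 1 * w) =
      ∫⁻ z, A.indicator (fun z => ENNReal.ofReal (1 / ‖z - 1‖)) z := by
    apply lintegral_congr
    intro z
    simp only [hF, map_one, one_mul, sub_sub_cancel]
  rw [← e1, ← e2, h1, h2]

end Pool.Agent.H194.MV
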