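import Pool.Agent.H194.MV.B2
import Pool.Agent.H194.MV.B4
import Pool.Agent.H194.MV.B5

set_option autoImplicit false

/-! # The number of good points, and the estimate on one level -/

namespace Pool.Agent.H194.MV

open Complex Metric Set Filter Topology MeasureTheory
open scoped ENNReal
open MeanVal.CoeffEst (PP)

/-- the hypotheses on `f` near the boundary -/
structure Ctx (f : ℂ → ℂ) (r₁ C₁ CE : ℝ) : Prop where
  diff : DifferentiableOn ℂ f (ball 0 1)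
  inj : InjOn f (ball 0 1)
  r0 : 0 < r₁
  r1 : r₁ < 1
  C0 : 0 < C₁
  E0 : 0 ≤ CE
  hL : ∀ z : ℂ, r₁ ≤ ‖z‖ → ‖z‖ < 1 → f z ≠ 0 ∧ ‖deriv f z‖ * (1 - ‖z‖) ≤ C₁ * ‖f z‖
  energy : ∀ n : ℕ, 2 ≤ n → ∫⁻ z in {z : ℂ | r₁ < ‖z‖ ∧ ‖z‖ < 1 - 1 / (n:ℝ)},
        ENNReal.ofReal ((‖deriv f z‖ / ‖f z‖) ^ 2) ≤ ENNReal.ofReal (CE * (1 + Real.log n))

variable {f : ℂ → ℂ} {r₁ C₁ CE : ℝ}

theorem count (K : Ctx f r₁ C₁ CE) {n : ℕ} (hn : 2 ≤ n) {κ : ℝ} (hκ : 0 < κ) (S : Finset ℂ)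
    (hS : ∀ w ∈ S, (8 * r₁ + 1) / 9 ≤ ‖w‖ ∧ ‖w‖ ≤ 1 - 16 / (n:ℝ) ∧
      κ * ‖f w‖ ≤ ‖deriv f w‖ * (1 - ‖w‖))
    (hd : (S : Set ℂ).PairwiseDisjoint (fun w => ball w ((1 - ‖w‖) / 8))) :
    (S.card : ℝ) * (Real.pi * κ ^ 2 / 64) ≤ CE * (1 + Real.log n) := by
  have hn2 : (2:ℝ) ≤ n := by exact_mod_cast hn
  have hn0 : (0:ℝ) < n := by linarith
  have hlogn : 0 ≤ Real.log n := Real.log_nonneg (by linarith)
  have h16 : 0 < 16 / (n:ℝ) := by positivity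
  have h1n : 1 / (n:ℝ) < (7 / 8) * (16 / n) := by
    rw [mul_div_assoc', div_lt_div_iff_of_pos_right hn0]
    norm_num
  have hwlt : ∀ w ∈ S, ‖w‖ < 1 := fun w hw => by
    have := (hS w hw).2.1
    linarith
  have hball : ∀ w ∈ S, ∀ z ∈ ball w ((1 - ‖w‖) / 8), r₁ < ‖z‖ ∧ ‖z‖ < 1 - 1 / (n:ℝ) := by
    intro w hw z hz
    rw [mem_ball, dist_eq_norm] at hz
    obtain ⟨h1, h2, h3⟩ := hS w hw
    have h4 := norm_sub_norm_le w (w - z)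
    rw [sub_sub_cancel, norm_sub_rev w z] at h4
    have h5 := norm_sub_norm_le z w
    constructor <;> linarith
  have h1 : ∀ w ∈ S, ENNReal.ofReal (Real.pi * κ ^ 2 / 64) ≤
      ∫⁻ z in ball w ((1 - ‖w‖) / 8), ENNReal.ofReal ((‖deriv f z‖ / ‖f z‖) ^ 2) := by
    intro w hw
    have hw1 := hwlt w hw
    have hδ : 0 < (1 - ‖w‖) / 8 := by linarith
    have hsub : ball w ((1 - ‖w‖) / 8) ⊆ ball 0 1 := by
      intro z hz
      rw [mem_ball_zero_iff]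
      have := (hball w hw z hz).2
      have : 0 < 1 / (n:ℝ) := by positivity
      linarith
    have hdiff : DifferentiableOn ℂ (fun z => deriv f z / f z) (ball w ((1 - ‖w‖) / 8)) := by
      apply ((K.diff.deriv isOpen_ball).mono hsub).div (K.diff.mono hsub)
      intro z hz
      exact (K.hL z (hball w hw z hz).1.le (mem_ball_zero_iff.1 (hsub hz))).1
    have h2 := area_mean_sq hδ hdiff
    simp only [norm_div] at h2
    refine le_trans (ENNReal.ofReal_le_ofReal ?_) h2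
    obtain ⟨h3, h4, h5⟩ := hS w hw
    have hr : r₁ ≤ ‖w‖ := by linarith [K.r1]
    have hfw : 0 < ‖f w‖ := norm_pos_iff.2 (K.hL w hr hw1).1
    have h6 : κ ≤ ‖deriv f w‖ / ‖f w‖ * (1 - ‖w‖) := by
      rw [div_mul_eq_mul_div, le_div_iff₀ hfw]
      exact h5
    have h7 : κ ^ 2 ≤ (‖deriv f w‖ / ‖f w‖ * (1 - ‖w‖)) ^ 2 := pow_le_pow_left₀ hκ.le h6 2
    have e1 : Real.pi * ((1 - ‖w‖) / 8) ^ 2 * (‖deriv f w‖ / ‖f w‖) ^ 2 =
        Real.pi * (‖deriv f w‖ / ‖f w‖ * (1 - ‖w‖)) ^ 2 / 64 := by ring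
    rw [e1]
    have := Real.pi_pos
    gcongr
  have h2 : ∑ w ∈ S, ENNReal.ofReal (Real.pi * κ ^ 2 / 64) ≤ ENNReal.ofReal (CE * (1 + Real.log n)) :=
    calc ∑ w ∈ S, ENNReal.ofReal (Real.pi * κ ^ 2 / 64)
        ≤ ∑ w ∈ S, ∫⁻ z in ball w ((1 - ‖w‖) / 8),
            ENNReal.ofReal ((‖deriv f z‖ / ‖f z‖) ^ 2) := Finset.sum_le_sum h1
      _ = ∫⁻ z in ⋃ w ∈ S, ball w ((1 - ‖w‖) / 8), ENNReal.ofReal ((‖deriv f z‖ / ‖f z‖) ^ 2) :=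
          (lintegral_biUnion_finset hd (fun _ _ => measurableSet_ball) _).symm
      _ ≤ ∫⁻ z in {z : ℂ | r₁ < ‖z‖ ∧ ‖z‖ < 1 - 1 / (n:ℝ)},
            ENNReal.ofReal ((‖deriv f z‖ / ‖f z‖) ^ 2) := by
          apply lintegral_mono_set
          intro z hz
          simp only [mem_iUnion] at hz
          obtain ⟨w, hw, hz⟩ := hz
          exact hball w hw z hz
      _ ≤ _ := K.energy n hn
  rw [Finset.sum_const, nsmul_eq_mul, ← ENNReal.ofReal_natCast, ← ENNReal.ofReal_mul (by positivity)]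
    at h2
  have h3 : 0 ≤ CE * (1 + Real.log n) := mul_nonneg K.E0 (by linarith)
  exact (ENNReal.ofReal_le_ofReal_iff h3).1 h2

/-- geometry of shadows -/
theorem shadow {z w v : ℂ} (hv : ‖v‖ < 1) (hzw : ‖z - w‖ ≤ 1 - ‖w‖)
    (hwv : ‖w - v‖ ≤ ((1 - ‖w‖) + (1 - ‖v‖)) / 8) :
    ‖1 - (starRingEnd ℂ) v * z‖ ≤ 4 * (1 - ‖v‖) ∧
      ∀ ζ : ℂ, ‖ζ‖ = 1 → ‖z - ζ‖ ≤ 3 * ‖v - ζ‖ := by
  have h1 := norm_sub_norm_le v w
  rw [norm_sub_rev v w] at h1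
  have h2 : 7 * (1 - ‖w‖) ≤ 9 * (1 - ‖v‖) := by linarith
  have h3 : ‖z - v‖ ≤ 11 / 7 * (1 - ‖v‖) := by
    have h4 : z - v = (z - w) + (w - v) := by ring
    have h5 := norm_add_le (z - w) (w - v)
    rw [← h4] at h5
    linarith
  refine ⟨?_, ?_⟩
  · have h4 : 1 - (starRingEnd ℂ) v * z = ((1 - ‖v‖ ^ 2 : ℝ) : ℂ) - (starRingEnd ℂ) v * (z - v) := by
      have h5 : (starRingEnd ℂ) v * v = ((‖v‖ ^ 2 : ℝ) : ℂ) := by
        rw [← Complex.normSq_eq_conj_mul_self, Complex.normSq_eq_norm_sq]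
      rw [Complex.ofReal_sub, ← h5, Complex.ofReal_one]
      ring
    have hv2 : ‖v‖ ^ 2 < 1 := norm_lt_sq.1 hv
    rw [h4]
    refine (norm_sub_le _ _).trans ?_
    rw [Complex.norm_real, Real.norm_of_nonneg (by linarith), norm_mul, RCLike.norm_conj]
    have h6 : ‖v‖ * ‖z - v‖ ≤ 1 * ‖z - v‖ := mul_le_mul_of_nonneg_right hv.le (norm_nonneg _)
    nlinarith [norm_nonneg v]
  · intro ζ hζ
    have h4 : z - ζ = (z - v) + (v - ζ) := by ring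
    have h5 := norm_add_le (z - v) (v - ζ)
    rw [← h4] at h5
    have h6 := norm_sub_norm_le ζ v
    rw [hζ, norm_sub_rev ζ v] at h6
    have h7 : 0 ≤ 1 - ‖v‖ := by linarith
    linarith

/-- `log |f|` on a ray -/
theorem ray_log (K : Ctx f r₁ C₁ CE) {ζ : ℂ} (hζ : ‖ζ‖ = 1) {x : ℝ} (hx : r₁ ≤ x) (hx1 : x < 1) :
    ∃ d, HasDerivAt (fun s : ℝ => Real.log ‖f (s * ζ)‖) d x ∧
      |d| ≤ ‖deriv f (x * ζ)‖ / ‖f (x * ζ)‖ := by
  have hx0 : 0 ≤ x := K.r0.le.trans hx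
  have hn : ‖(x : ℂ) * ζ‖ = x := by
    rw [norm_mul, hζ, mul_one, Complex.norm_real, Real.norm_of_nonneg hx0]
  have h1 : HasDerivAt f (deriv f (x * ζ)) (x * ζ) :=
    (K.diff.differentiableAt (isOpen_ball.mem_nhds (by rw [mem_ball_zero_iff, hn]; exact hx1))).hasDerivAt
  have h2 : HasDerivAt (fun s : ℝ => (s : ℂ) * ζ) ζ x := by
    have := (Complex.ofRealCLM.hasDerivAt (x := x)).mul_const ζ
    simpa using this
  have h3 : HasDerivAt (fun s : ℝ => f (s * ζ)) (ζ • deriv f (x * ζ)) x := HasDerivAt.scomp x h1 h2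
  obtain ⟨d, hd1, hd2⟩ := MeanVal.Ray.log_norm_deriv _ _ x h3 (K.hL _ (by rw [hn]; exact hx)
    (by rw [hn]; exact hx1)).1
  refine ⟨d, hd1, ?_⟩
  rw [norm_smul, hζ, one_mul] at hd2
  exact hd2

end Pool.Agent.H194.MV
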