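import Pool.Agent.H194.MV.B6

set_option autoImplicit false

/-! # The estimate on one level -/

namespace Pool.Agent.H194.MV

open Complex Metric Set Filter Topology MeasureTheory
open scoped ENNReal
open MeanVal.CoeffEst (PP)

variable {f : ℂ → ℂ} {r₁ C₁ CE : ℝ}

/-- the annulus -/
def AA (n : ℕ) : Set ℂ := {z : ℂ | 1 - 2 / (n:ℝ) < ‖z‖ ∧ ‖z‖ < 1 - 1 / (n:ℝ)}

theorem AA_meas (n : ℕ) : MeasurableSet (AA n) := by
  apply MeasurableSet.inter
  · exact measurableSet_lt measurable_const measurable_norm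
  · exact measurableSet_lt measurable_norm measurable_const

/-- a part of the annulus where `|f|` is at most `exp b` and more than `exp a` -/
def LL (f : ℂ → ℂ) (n : ℕ) (a b : ℝ) : Set ℂ :=
  AA n ∩ {z | Real.exp a < ‖f z‖} ∩ {z | ‖f z‖ ≤ Real.exp b}

theorem AA_sub {n : ℕ} (hn : 1 ≤ n) : AA n ⊆ ball 0 1 := by
  intro z hz
  rw [mem_ball_zero_iff]
  have h1 := hz.2
  have : (0:ℝ) < 1 / n := by
    have : (0:ℝ) < n := by exact_mod_cast hn
    positivity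
  linarith

theorem le_meas (hf : DifferentiableOn ℂ f (ball 0 1)) {n : ℕ} (hn : 1 ≤ n) (b : ℝ) :
    MeasurableSet (AA n ∩ {z | ‖f z‖ ≤ b}) := by
  have h1 : IsOpen (ball (0 : ℂ) 1 ∩ (fun z => ‖f z‖) ⁻¹' (Ioi b)) :=
    hf.continuousOn.norm.isOpen_inter_preimage isOpen_ball isOpen_Ioi
  have h2 : AA n ∩ {z | ‖f z‖ ≤ b} = AA n \ (ball (0 : ℂ) 1 ∩ (fun z => ‖f z‖) ⁻¹' (Ioi b)) := by
    ext z
    constructor
    · rintro ⟨h3, h4⟩
      refine ⟨h3, fun h5 => ?_⟩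
      have h6 : b < ‖f z‖ := h5.2
      have h7 : ‖f z‖ ≤ b := h4
      linarith
    · rintro ⟨h3, h4⟩
      refine ⟨h3, ?_⟩
      by_contra h5
      apply h4
      refine ⟨AA_sub hn h3, ?_⟩
      have h6 : ¬ ‖f z‖ ≤ b := h5
      push Not at h6
      exact h6
  rw [h2]
  exact (AA_meas n).diff h1.measurableSet

theorem LL_meas (hf : DifferentiableOn ℂ f (ball 0 1)) {n : ℕ} (hn : 1 ≤ n) (a b : ℝ) :
    MeasurableSet (LL f n a b) := by
  have h1 : LL f n a b = (AA n ∩ {z | ‖f z‖ ≤ Real.exp b}) \ (AA n ∩ {z | ‖f z‖ ≤ Real.exp a}) := by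
    ext z
    constructor
    · rintro ⟨⟨h3, h4⟩, h5⟩
      refine ⟨⟨h3, h5⟩, fun h6 => ?_⟩
      have h7 : Real.exp a < ‖f z‖ := h4
      have h8 : ‖f z‖ ≤ Real.exp a := h6.2
      linarith
    · rintro ⟨⟨h3, h5⟩, h6⟩
      refine ⟨⟨h3, ?_⟩, h5⟩
      by_contra h7
      apply h6
      refine ⟨h3, ?_⟩
      have h8 : ¬ Real.exp a < ‖f z‖ := h7
      push Not at h8
      exact h8
  rw [h1]
  exact (le_meas hf hn _).diff (le_meas hf hn _)

theorem PP_shadow {m : ℕ} {ζ : Fin m → ℂ} (hζ : ∀ l, ‖ζ l‖ = 1) {z v : ℂ}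
    (h : ∀ ξ : ℂ, ‖ξ‖ = 1 → ‖z - ξ‖ ≤ 3 * ‖v - ξ‖) : ‖PP ζ z‖ ≤ 3 ^ m * ‖PP ζ v‖ := by
  rw [MeanVal.CoeffEst.PP_norm, MeanVal.CoeffEst.PP_norm]
  calc ∏ l, ‖z - ζ l‖ ≤ ∏ l, (3 * ‖v - ζ l‖) :=
        Finset.prod_le_prod (fun _ _ => norm_nonneg _) fun l _ => h _ (hζ l)
    _ = 3 ^ m * ∏ l, ‖v - ζ l‖ := by
        rw [Finset.prod_mul_distrib, Finset.prod_const, Finset.card_univ, Fintype.card_fin]

/-- the good point below a point of the annulus -/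
theorem good_point (K : Ctx f r₁ C₁ CE) {c ε : ℝ} (hε : 0 < ε)
    (hc : ∀ z : ℂ, ‖z‖ ≤ (8 * r₁ + 1) / 9 → ‖f z‖ ≤ Real.exp c) {n : ℕ}
    (hn : 2 ≤ n) (hn2 : 2 / (n:ℝ) ≤ 1 - (8 * r₁ + 1) / 9) (hn3 : 16 ≤ (n:ℝ) ^ (ε / C₁)) {s : ℝ}
    (hs : c + 2 * (ε * Real.log n) ≤ s) {z : ℂ} (hz : z ∈ AA n) (hsz : Real.exp s < ‖f z‖) :
    ∃ w : ℂ, (8 * r₁ + 1) / 9 ≤ ‖w‖ ∧ ‖w‖ ≤ 1 - 16 / (n:ℝ) ∧
      Real.exp (s - 2 * (ε * Real.log n)) ≤ ‖f w‖ ∧ ‖f w‖ ≤ Real.exp (s - ε * Real.log n) ∧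
      ε * ‖f w‖ ≤ ‖deriv f w‖ * (1 - ‖w‖) ∧ ‖z - w‖ ≤ 1 - ‖w‖ := by
  have hnR : (2:ℝ) ≤ n := by exact_mod_cast hn
  have hn0 : (0:ℝ) < n := by linarith
  have hlogn : 0 < Real.log n := Real.log_pos (by linarith)
  set a : ℝ := (8 * r₁ + 1) / 9 with ha
  have har : r₁ ≤ a := by rw [ha]; linarith [K.r1]
  have ha0 : 0 < a := K.r0.trans_le har
  obtain ⟨hz1, hz2⟩ := hz
  set y : ℝ := ‖z‖ with hy
  have hay : a ≤ y := by linarith
  have hy0 : 0 < y := ha0.trans_le hay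
  have h1n : 0 < 1 / (n:ℝ) := by positivity
  have hy1 : y < 1 := by linarith
  set ζ : ℂ := z / (y : ℂ) with hζ
  have hζn : ‖ζ‖ = 1 := by
    rw [hζ, norm_div, Complex.norm_real, Real.norm_of_nonneg hy0.le, ← hy]
    exact div_self hy0.ne'
  have hzζ : (y : ℂ) * ζ = z := by
    rw [hζ, mul_div_cancel₀]
    exact_mod_cast hy0.ne'
  have hnx : ∀ x : ℝ, 0 ≤ x → ‖(x : ℂ) * ζ‖ = x := by
    intro x hx
    rw [norm_mul, hζn, Complex.norm_real, Real.norm_of_nonneg hx, mul_one]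
  set u : ℝ → ℝ := fun s => Real.log ‖f (s * ζ)‖ with hu
  set q : ℝ := ε * Real.log n with hlam
  have hq0 : 0 < q := mul_pos hε hlogn
  have hpos : ∀ x ∈ Icc a y, 0 < ‖f (x * ζ)‖ := by
    intro x hx
    apply norm_pos_iff.2
    exact (K.hL _ (by rw [hnx x (ha0.le.trans hx.1)]; exact har.trans hx.1)
      (by rw [hnx x (ha0.le.trans hx.1)]; exact hx.2.trans_lt hy1)).1
  have hd : ∀ x ∈ Icc a y, ∃ d, HasDerivAt u d x ∧ |d| ≤ ‖deriv f (x * ζ)‖ / ‖f (x * ζ)‖ :=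
    fun x hx => ray_log K hζn (har.trans hx.1) (hx.2.trans_lt hy1)
  have huy : s < u y := by
    simp only [hu]
    rw [hzζ, Real.lt_log_iff_exp_lt (by
      have := hpos y ⟨hay, le_rfl⟩
      rwa [hzζ] at this)]
    exact hsz
  have hua : u a ≤ c := by
    simp only [hu]
    rw [Real.log_le_iff_le_exp (hpos a ⟨le_rfl, hay⟩)]
    apply hc
    rw [hnx a ha0.le]
  have hly : -Real.log n < Real.log (1 - y) := by
    have h1 : 1 / (n:ℝ) < 1 - y := by linarith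
    have h2 := Real.log_lt_log h1n h1
    rwa [one_div, Real.log_inv] at h2
  have hla : Real.log (1 - a) ≤ 0 := Real.log_nonpos (by linarith) (by linarith)
  obtain ⟨x, hx, hx1, hx2, hx3⟩ := path_good (g := fun x => ‖deriv f (x * ζ)‖ / ‖f (x * ζ)‖)
    (α := s - 2 * q) (β := s - q) (κ := ε) hay hy1 hε.le hd (by linarith) (by linarith)
    (by linarith) (by
      have h1 : ε * (Real.log (1 - a) - Real.log (1 - y)) < ε * Real.log n :=
        mul_lt_mul_of_pos_left (by linarith) hε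
      linarith)
  have hx0 : 0 ≤ x := ha0.le.trans hx.1
  have hxn := hnx x hx0
  have hfx := hpos x hx
  have hx1' : 0 < 1 - x := by linarith [hx.2]
  refine ⟨x * ζ, ?_, ?_, ?_, ?_, ?_, ?_⟩
  · rw [hxn]; exact hx.1
  · rw [hxn]
    -- growth
    have hgr := path_growth (u := u) (a := x) (b := y) (C := C₁) hx.2 hy1 (by
      intro t ht
      have ht' : t ∈ Icc a y := ⟨hx.1.trans ht.1, ht.2⟩
      obtain ⟨d, hd1, hd2⟩ := hd t ht'
      refine ⟨d, hd1, ?_⟩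
      have ht0 : 0 ≤ t := hx0.trans ht.1
      have h2 := (K.hL (t * ζ) (by rw [hnx t ht0]; exact har.trans ht'.1)
        (by rw [hnx t ht0]; exact ht.2.trans_lt hy1)).2
      rw [hnx t ht0] at h2
      have h3 := hpos t ht'
      have h4 : 0 ≤ 1 - t := by linarith [ht.2]
      calc |d| * (1 - t) ≤ ‖deriv f (t * ζ)‖ / ‖f (t * ζ)‖ * (1 - t) :=
            mul_le_mul_of_nonneg_right hd2 h4
        _ = ‖deriv f (t * ζ)‖ * (1 - t) / ‖f (t * ζ)‖ := by ring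
        _ ≤ C₁ := by
            rw [div_le_iff₀ h3]
            exact h2)
    have h1 : q ≤ C₁ * (Real.log (1 - x) - Real.log (1 - y)) := by linarith
    have h2 : q / C₁ ≤ Real.log (1 - x) - Real.log (1 - y) := by
      rw [div_le_iff₀ K.C0]
      linarith
    have h3 : Real.log (16 / n) ≤ Real.log (1 - x) := by
      have h4 := Real.log_le_log (by norm_num) hn3
      rw [Real.log_rpow hn0] at h4
      rw [Real.log_div (by norm_num) hn0.ne']
      have h5 : q / C₁ = ε / C₁ * Real.log n := by rw [hlam]; ring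
      rw [h5] at h2
      linarith
    have h4 := (Real.log_le_log_iff (by positivity) hx1').1 h3
    linarith
  · rw [← Real.le_log_iff_exp_le hfx]
    exact hx1
  · rw [← Real.log_le_iff_le_exp hfx]
    exact hx2
  · rw [hxn]
    have h1 : ε ≤ ‖deriv f (x * ζ)‖ * (1 - x) / ‖f (x * ζ)‖ := by
      rw [mul_div_right_comm]
      exact hx3
    rwa [le_div_iff₀ hfx] at h1
  · rw [hxn]
    have h1 : z - x * ζ = ((y - x : ℝ) : ℂ) * ζ := by
      rw [← hzζ]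
      push_cast
      ring
    rw [h1, hnx _ (by linarith [hx.2])]
    linarith

end Pool.Agent.H194.MV
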