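import Pool.Agent.H194.MV.B7

set_option autoImplicit false

/-! # The estimate on one level, and on the whole annulus -/

namespace Pool.Agent.H194.MV

open Complex Metric Set Filter Topology MeasureTheory
open scoped ENNReal
open MeanVal.CoeffEst (PP)

variable {f : ℂ → ℂ} {r₁ C₁ CE : ℝ}

theorem lint_finset_le {ι : Type*} (S : Finset ι) (t : ι → Set ℂ) (g : ℂ → ℝ≥0∞) :
    ∫⁻ z in ⋃ w ∈ S, t w, g z ≤ ∑ w ∈ S, ∫⁻ z in t w, g z := by
  classical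
  induction S using Finset.induction_on with
  | empty => simp
  | insert a S ha ih =>
    rw [Finset.set_biUnion_insert, Finset.sum_insert ha]
    exact (lintegral_union_le _ _ _).trans (add_le_add le_rfl ih)

/-- the local estimate, with its constant -/
def LocC (Kl : ℝ) : Prop := ∀ f : ℂ → ℂ, DifferentiableOn ℂ f (ball 0 1) →
    InjOn f (ball 0 1) → ∀ w : ℂ, ‖w‖ < 1 → ∀ N : ℝ, 16 ≤ N * (1 - ‖w‖) → ∀ R : ℝ, ‖f w‖ ≤ R →
    ∀ E : Set ℂ, MeasurableSet E →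
    (∀ z ∈ E, ‖z‖ ≤ 1 - 1 / N ∧ 1 - 2 / N ≤ ‖z‖ ∧ ‖f z‖ ≤ R ∧
      ‖1 - (starRingEnd ℂ) w * z‖ ≤ 4 * (1 - ‖w‖)) →
    ∫⁻ z in E, ENNReal.ofReal ‖deriv f z‖ ≤
      ENNReal.ofReal (Kl * (R ^ 2 / ‖deriv f w‖) * (N * (1 - ‖w‖)) ^ (aa - 1))

theorem exists_LocC : ∃ Kl : ℝ, 0 < Kl ∧ LocC Kl := local_bound

theorem level_bound {Kl : ℝ} (hKl : 0 < Kl) (hloc : LocC Kl) (K : Ctx f r₁ C₁ CE) {c ε : ℝ}
    (hε : 0 < ε) (hc : ∀ z : ℂ, ‖z‖ ≤ (8 * r₁ + 1) / 9 → ‖f z‖ ≤ Real.exp c) {n : ℕ}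
    (hn : 2 ≤ n) (hn2 : 2 / (n:ℝ) ≤ 1 - (8 * r₁ + 1) / 9) (hn3 : 16 ≤ (n:ℝ) ^ (ε / C₁)) {s : ℝ}
    (hs : c + 2 * (ε * Real.log n) ≤ s) {m : ℕ} {ζ : Fin m → ℂ} (hζ : ∀ l, ‖ζ l‖ = 1) {B : ℝ}
    (hB : 0 ≤ B) (hsup : ∀ z : ℂ, r₁ ≤ ‖z‖ → ‖z‖ ≤ 1 - 1 / (n:ℝ) →
      ‖f z‖ * ‖PP ζ z‖ * (1 - ‖z‖) ^ aa ≤ B) :
    ∫⁻ z in LL f n s (s + ε * Real.log n), ENNReal.ofReal (‖deriv f z‖ * ‖PP ζ z‖) ≤
      ENNReal.ofReal ((64 * CE * (1 + Real.log n) / (Real.pi * ε ^ 2)) *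
        (3 ^ m * Kl / ε * Real.exp (6 * (ε * Real.log n)) * (n:ℝ) ^ (aa - 1) * B)) := by
  have hnR : (2:ℝ) ≤ n := by exact_mod_cast hn
  have hn0 : (0:ℝ) < n := by linarith
  have hlogn : 0 < Real.log n := Real.log_pos (by linarith)
  have h1n : 0 < 1 / (n:ℝ) := by positivity
  have h16 : 0 < 16 / (n:ℝ) := by positivity
  have hE0 := K.E0
  have hpi := Real.pi_pos
  set a : ℝ := (8 * r₁ + 1) / 9 with ha
  have har : r₁ ≤ a := by rw [ha]; linarith [K.r1]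
  have ha0 : 0 < a := K.r0.trans_le har
  set q : ℝ := ε * Real.log n with hq
  have hq0 : 0 < q := mul_pos hε hlogn
  set W : Set ℂ := {w : ℂ | a ≤ ‖w‖ ∧ ‖w‖ ≤ 1 - 16 / (n:ℝ) ∧ Real.exp (s - 2 * q) ≤ ‖f w‖ ∧
    ‖f w‖ ≤ Real.exp (s - q) ∧ ε * ‖f w‖ ≤ ‖deriv f w‖ * (1 - ‖w‖)} with hW
  set M : ℕ := ⌊64 * CE * (1 + Real.log n) / (Real.pi * ε ^ 2)⌋₊ with hM
  have hWlt : ∀ w ∈ W, ‖w‖ < 1 := fun w hw => by
    have := hw.2.1
    linarith
  obtain ⟨S, hS1, hS2, hS3⟩ := exists_cover W M (by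
    intro S hS hd
    apply Nat.le_floor
    have h1 := count K hn hε S (fun w hw => ⟨(hS w hw).1, (hS w hw).2.1, (hS w hw).2.2.2.2⟩) hd
    rw [le_div_iff₀ (by positivity)]
    calc (S.card : ℝ) * (Real.pi * ε ^ 2) = 64 * ((S.card : ℝ) * (Real.pi * ε ^ 2 / 64)) := by ring
      _ ≤ 64 * (CE * (1 + Real.log n)) := by linarith
      _ = _ := by ring) hWlt
  set L : Set ℂ := LL f n s (s + q) with hL
  have hLm : MeasurableSet L := LL_meas K.diff (by omega) _ _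
  set E : ℂ → Set ℂ := fun w => L ∩ ({z | ‖1 - (starRingEnd ℂ) w * z‖ ≤ 4 * (1 - ‖w‖)} ∩
    {z | ‖PP ζ z‖ ≤ 3 ^ m * ‖PP ζ w‖}) with hE
  have hEm : ∀ w, MeasurableSet (E w) := by
    intro w
    apply hLm.inter
    apply MeasurableSet.inter
    · exact (isClosed_le (by fun_prop) continuous_const).measurableSet
    · exact (isClosed_le (MeanVal.CoeffEst.PP_diff ζ).continuous.norm continuous_const).measurableSet
  have hcov : L ⊆ ⋃ w ∈ S, E w := by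
    intro z hz
    obtain ⟨⟨hzA, hz1⟩, hz2⟩ := hz
    obtain ⟨w, hw1, hw2, hw3, hw4, hw5, hw6⟩ := good_point K hε hc hn hn2 hn3 hs hzA hz1
    obtain ⟨v, hv, hwv⟩ := hS3 w ⟨hw1, hw2, hw3, hw4, hw5⟩
    have hv1 := hWlt v (hS1 v hv)
    obtain ⟨h1, h2⟩ := shadow hv1 hw6 hwv
    simp only [mem_iUnion]
    exact ⟨v, hv, ⟨⟨hzA, hz1⟩, hz2⟩, h1, PP_shadow hζ h2⟩
  set T : ℝ := 3 ^ m * Kl / ε * Real.exp (6 * q) * (n:ℝ) ^ (aa - 1) * B with hT
  have hT0 : 0 ≤ T := by positivity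
  have hEw : ∀ w ∈ S, ∫⁻ z in E w, ENNReal.ofReal (‖deriv f z‖ * ‖PP ζ z‖) ≤ ENNReal.ofReal T := by
    intro w hw
    obtain ⟨hw1, hw2, hw3, hw4, hw5⟩ := hS1 w hw
    have hwlt := hWlt w (hS1 w hw)
    set δ : ℝ := 1 - ‖w‖ with hδ
    have hδ0 : 0 < δ := by linarith
    set R : ℝ := Real.exp (s + q) with hR
    have hR0 : 0 < R := Real.exp_pos _
    have hfw : 0 < ‖f w‖ := (Real.exp_pos _).trans_le hw3
    have hdw : 0 < ‖deriv f w‖ := by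
      by_contra h
      push Not at h
      have : ε * ‖f w‖ ≤ 0 := hw5.trans (mul_nonpos_of_nonpos_of_nonneg h hδ0.le)
      have : 0 < ε * ‖f w‖ := mul_pos hε hfw
      linarith
    have h1 := hloc f K.diff K.inj w hwlt n (by
      have h2 : 16 / (n:ℝ) ≤ δ := by linarith
      rw [div_le_iff₀ hn0] at h2
      linarith) R (hw4.trans (Real.exp_le_exp.2 (by linarith))) (E w) (hEm w) (by
      intro z hz
      obtain ⟨⟨⟨hz1, hz2⟩, hz3⟩, hz4, hz5⟩ := hz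
      exact ⟨hz1.2.le, hz1.1.le, hz3, hz4⟩)
    have h2 : R ≤ ‖f w‖ * Real.exp (3 * q) := by
      have h3 : R = Real.exp (s - 2 * q) * Real.exp (3 * q) := by
        rw [hR, ← Real.exp_add]
        congr 1
        ring
      rw [h3]
      exact mul_le_mul_of_nonneg_right hw3 (Real.exp_pos _).le
    have h3 : R ^ 2 ≤ ‖f w‖ ^ 2 * Real.exp (6 * q) := by
      have h4 : Real.exp (6 * q) = Real.exp (3 * q) ^ 2 := by
        rw [← Real.exp_nat_mul]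
        congr 1
        push_cast
        ring
      rw [h4, ← mul_pow]
      exact pow_le_pow_left₀ hR0.le h2 2
    have h4 : R ^ 2 / ‖deriv f w‖ ≤ ‖f w‖ * Real.exp (6 * q) * δ / ε := by
      rw [div_le_div_iff₀ hdw hε]
      calc R ^ 2 * ε ≤ ‖f w‖ ^ 2 * Real.exp (6 * q) * ε := mul_le_mul_of_nonneg_right h3 hε.le
        _ = ‖f w‖ * Real.exp (6 * q) * (ε * ‖f w‖) := by ring
        _ ≤ ‖f w‖ * Real.exp (6 * q) * (‖deriv f w‖ * δ) := by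
            apply mul_le_mul_of_nonneg_left hw5 (by positivity)
        _ = _ := by ring
    have hsupw := hsup w (har.trans hw1) (by
      have : 1 / (n:ℝ) ≤ 16 / n := div_le_div_of_nonneg_right (by norm_num) hn0.le
      linarith)
    calc ∫⁻ z in E w, ENNReal.ofReal (‖deriv f z‖ * ‖PP ζ z‖)
        ≤ ∫⁻ z in E w, ENNReal.ofReal (3 ^ m * ‖PP ζ w‖) * ENNReal.ofReal ‖deriv f z‖ := by
          apply setLIntegral_mono' (hEm w)
          intro z hz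
          rw [← ENNReal.ofReal_mul (by positivity)]
          apply ENNReal.ofReal_le_ofReal
          have h5 : ‖PP ζ z‖ ≤ 3 ^ m * ‖PP ζ w‖ := hz.2.2
          rw [mul_comm]
          exact mul_le_mul_of_nonneg_right h5 (norm_nonneg _)
      _ = ENNReal.ofReal (3 ^ m * ‖PP ζ w‖) * ∫⁻ z in E w, ENNReal.ofReal ‖deriv f z‖ :=
          lintegral_const_mul' _ _ ENNReal.ofReal_ne_top
      _ ≤ ENNReal.ofReal (3 ^ m * ‖PP ζ w‖) *
            ENNReal.ofReal (Kl * (R ^ 2 / ‖deriv f w‖) * ((n:ℝ) * δ) ^ (aa - 1)) := by gcongr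
      _ ≤ ENNReal.ofReal T := by
          rw [← ENNReal.ofReal_mul (by positivity)]
          apply ENNReal.ofReal_le_ofReal
          calc 3 ^ m * ‖PP ζ w‖ * (Kl * (R ^ 2 / ‖deriv f w‖) * ((n:ℝ) * δ) ^ (aa - 1))
              ≤ 3 ^ m * ‖PP ζ w‖ * (Kl * (‖f w‖ * Real.exp (6 * q) * δ / ε) *
                  ((n:ℝ) * δ) ^ (aa - 1)) := by gcongr
            _ = 3 ^ m * Kl / ε * Real.exp (6 * q) * (n:ℝ) ^ (aa - 1) *
                  (‖f w‖ * ‖PP ζ w‖ * δ ^ aa) := by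
                rw [Real.mul_rpow hn0.le hδ0.le, Real.rpow_sub_one hδ0.ne']
                field_simp
            _ ≤ T := by
                rw [hT]
                gcongr
  calc ∫⁻ z in L, ENNReal.ofReal (‖deriv f z‖ * ‖PP ζ z‖)
      ≤ ∫⁻ z in ⋃ w ∈ S, E w, ENNReal.ofReal (‖deriv f z‖ * ‖PP ζ z‖) := lintegral_mono_set hcov
    _ ≤ ∑ w ∈ S, ∫⁻ z in E w, ENNReal.ofReal (‖deriv f z‖ * ‖PP ζ z‖) := lint_finset_le _ _ _
    _ ≤ ∑ w ∈ S, ENNReal.ofReal T := Finset.sum_le_sum hEw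
    _ = ENNReal.ofReal (S.card * T) := by
        rw [Finset.sum_const, nsmul_eq_mul, ← ENNReal.ofReal_natCast,
          ← ENNReal.ofReal_mul (by positivity)]
    _ ≤ _ := by
        apply ENNReal.ofReal_le_ofReal
        apply mul_le_mul_of_nonneg_right _ hT0
        have h5 : (S.card : ℝ) ≤ M := by exact_mod_cast hS2
        refine h5.trans (Nat.floor_le ?_)
        positivity

end Pool.Agent.H194.MV
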