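import Pool.Agent.H194.MV.B8

set_option autoImplicit false

/-! # The estimate on the annulus -/

namespace Pool.Agent.H194.MV

open Complex Metric Set Filter Topology MeasureTheory
open scoped ENNReal
open MeanVal.CoeffEst (PP h2)

variable {f : ℂ → ℂ} {r₁ C₁ CE : ℝ}

theorem base_bound {Kl : ℝ} (hloc : LocC Kl) (K : Ctx f r₁ C₁ CE) {b : ℝ}
    (hb : ‖f 0‖ ≤ Real.exp b) {n : ℕ} (hn : 16 ≤ n) {m : ℕ} {ζ : Fin m → ℂ}
    (hζ : ∀ l, ‖ζ l‖ = 1) :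
    ∫⁻ z in AA n ∩ {z | ‖f z‖ ≤ Real.exp b}, ENNReal.ofReal (‖deriv f z‖ * ‖PP ζ z‖) ≤
      ENNReal.ofReal (2 ^ m * (Kl * (Real.exp b ^ 2 / ‖deriv f 0‖) * (n:ℝ) ^ (aa - 1))) := by
  have hnR : (16:ℝ) ≤ n := by exact_mod_cast hn
  have hm := le_meas K.diff (by omega : 1 ≤ n) (Real.exp b)
  have h1 := hloc f K.diff K.inj 0 (by simp) n (by simpa using hnR) (Real.exp b) hb
    (AA n ∩ {z | ‖f z‖ ≤ Real.exp b}) hm (by
      intro z hz
      refine ⟨hz.1.2.le, hz.1.1.le, hz.2, ?_⟩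
      simp)
  simp only [norm_zero, sub_zero, mul_one] at h1
  calc ∫⁻ z in AA n ∩ {z | ‖f z‖ ≤ Real.exp b}, ENNReal.ofReal (‖deriv f z‖ * ‖PP ζ z‖)
      ≤ ∫⁻ z in AA n ∩ {z | ‖f z‖ ≤ Real.exp b},
          ENNReal.ofReal (2 ^ m) * ENNReal.ofReal ‖deriv f z‖ := by
        apply setLIntegral_mono' hm
        intro z hz
        rw [← ENNReal.ofReal_mul (by positivity), mul_comm]
        apply ENNReal.ofReal_le_ofReal
        apply mul_le_mul_of_nonneg_right _ (norm_nonneg _)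
        exact MeanVal.CoeffEst.PP_le ζ hζ z
          (mem_ball_zero_iff.1 (AA_sub (by omega : 1 ≤ n) hz.1)).le
    _ = ENNReal.ofReal (2 ^ m) *
          ∫⁻ z in AA n ∩ {z | ‖f z‖ ≤ Real.exp b}, ENNReal.ofReal ‖deriv f z‖ :=
        lintegral_const_mul' _ _ ENNReal.ofReal_ne_top
    _ ≤ ENNReal.ofReal (2 ^ m) *
          ENNReal.ofReal (Kl * (Real.exp b ^ 2 / ‖deriv f 0‖) * (n:ℝ) ^ (aa - 1)) := by gcongr
    _ = _ := (ENNReal.ofReal_mul (by positivity)).symm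

theorem sum_bound {Kl : ℝ} (hKl : 0 < Kl) (hloc : LocC Kl) (K : Ctx f r₁ C₁ CE) {c ε C₂ : ℝ}
    (hε : 0 < ε) (hc0 : 0 ≤ c) (hc : ∀ z : ℂ, ‖z‖ ≤ (8 * r₁ + 1) / 9 → ‖f z‖ ≤ Real.exp c)
    (hC₂ : 0 ≤ C₂) (hlog : ∀ z : ℂ, r₁ ≤ ‖z‖ → ‖z‖ < 1 →
      |Real.log ‖f z‖| ≤ C₂ + C₁ * Real.log (1 / (1 - ‖z‖))) {n : ℕ}
    (hn : 16 ≤ n) (hn2 : 2 / (n:ℝ) ≤ 1 - (8 * r₁ + 1) / 9) (hn3 : 16 ≤ (n:ℝ) ^ (ε / C₁))
    {m : ℕ} {ζ : Fin m → ℂ} (hζ : ∀ l, ‖ζ l‖ = 1) {B : ℝ}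
    (hB : 0 ≤ B) (hsup : ∀ z : ℂ, r₁ ≤ ‖z‖ → ‖z‖ ≤ 1 - 1 / (n:ℝ) →
      ‖f z‖ * ‖PP ζ z‖ * (1 - ‖z‖) ^ aa ≤ B) :
    ∫⁻ z in AA n, ENNReal.ofReal (‖deriv f z‖ * ‖PP ζ z‖) ≤
      ENNReal.ofReal ((2 ^ m * (Kl * (Real.exp (c + 2 * (ε * Real.log n)) ^ 2 / ‖deriv f 0‖) *
        (n:ℝ) ^ (aa - 1))) + ⌈(C₂ + C₁) / ε⌉₊ *
        ((64 * CE * (1 + Real.log n) / (Real.pi * ε ^ 2)) *
        (3 ^ m * Kl / ε * Real.exp (6 * (ε * Real.log n)) * (n:ℝ) ^ (aa - 1) * B))) := by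
  have hnR : (16:ℝ) ≤ n := by exact_mod_cast hn
  have hn0 : (0:ℝ) < n := by linarith
  have hlogn1 : 1 ≤ Real.log n := by
    rw [Real.le_log_iff_exp_le hn0]
    have := Real.exp_one_lt_d9
    linarith
  have hlogn : 0 < Real.log n := by linarith
  have hpi := Real.pi_pos
  have hE0 := K.E0
  have hC₁ := K.C0
  set q : ℝ := ε * Real.log n with hq
  have hq0 : 0 < q := mul_pos hε hlogn
  set J : ℕ := ⌈(C₂ + C₁) / ε⌉₊ with hJ
  have hJ1 : C₂ + C₁ * Real.log n ≤ J * q := by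
    have h1 : (C₂ + C₁) / ε ≤ J := Nat.le_ceil _
    rw [div_le_iff₀ hε] at h1
    have h2 : (C₂ + C₁) * Real.log n ≤ J * ε * Real.log n :=
      mul_le_mul_of_nonneg_right h1 hlogn.le
    rw [hq]
    nlinarith
  have hf0 : ‖f 0‖ ≤ Real.exp (c + 2 * q) := by
    refine (hc 0 ?_).trans (Real.exp_le_exp.2 (by linarith))
    rw [norm_zero]
    have := K.r0
    positivity
  set base : Set ℂ := AA n ∩ {z | ‖f z‖ ≤ Real.exp (c + 2 * q)} with hbase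
  set lev : ℕ → Set ℂ := fun j => LL f n (c + 2 * q + j * q) (c + 2 * q + j * q + q) with hlev
  have hcov : AA n ⊆ base ∪ ⋃ j ∈ Finset.range J, lev j := by
    intro z hz
    by_cases h1 : ‖f z‖ ≤ Real.exp (c + 2 * q)
    · exact Or.inl ⟨hz, h1⟩
    · right
      push Not at h1
      have hfz : 0 < ‖f z‖ := (Real.exp_pos _).trans h1
      have hz1 : r₁ ≤ ‖z‖ := by
        have := hz.1
        have := K.r1
        linarith
      have hz2 : ‖z‖ < 1 - 1 / (n:ℝ) := hz.2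
      have h1n : 0 < 1 / (n:ℝ) := by positivity
      have h2 := hlog z hz1 (by linarith)
      have h3 : Real.log (1 / (1 - ‖z‖)) ≤ Real.log n := by
        apply Real.log_le_log
        · apply one_div_pos.2
          linarith
        · rw [div_le_iff₀ (by linarith)]
          have h4 : 1 / (n : ℝ) < 1 - ‖z‖ := by linarith
          rw [div_lt_iff₀ hn0] at h4
          linarith
      have h4 : Real.log ‖f z‖ ≤ J * q := by
        refine (le_abs_self _).trans (h2.trans (le_trans ?_ hJ1))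
        have := mul_le_mul_of_nonneg_left h3 hC₁.le
        linarith
      have h5 : c + 2 * q < Real.log ‖f z‖ := by
        rw [Real.lt_log_iff_exp_lt hfz]; exact h1
      set t : ℝ := (Real.log ‖f z‖ - (c + 2 * q)) / q with ht
      have ht0 : 0 < t := div_pos (by linarith) hq0
      have htJ : t ≤ J := by
        rw [ht, div_le_iff₀ hq0]
        linarith
      have hceil : 0 < ⌈t⌉₊ := Nat.ceil_pos.2 ht0
      have hcJ : ⌈t⌉₊ ≤ J := Nat.ceil_le.2 htJ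
      obtain ⟨j, hj⟩ : ∃ j, ⌈t⌉₊ = j + 1 := ⟨⌈t⌉₊ - 1, by omega⟩
      have hj1 : (j : ℝ) < t := by
        have h6 : j < ⌈t⌉₊ := by omega
        exact Nat.lt_ceil.1 h6
      have hj2 : t ≤ j + 1 := by
        have h6 := Nat.le_ceil t
        rw [hj] at h6
        push_cast at h6
        exact h6
      rw [ht, lt_div_iff₀ hq0] at hj1
      rw [ht, div_le_iff₀ hq0] at hj2
      simp only [mem_iUnion, Finset.mem_range]
      refine ⟨j, by omega, ⟨hz, ?_⟩, ?_⟩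
      · show Real.exp (c + 2 * q + j * q) < ‖f z‖
        rw [← Real.lt_log_iff_exp_lt hfz]
        linarith
      · show ‖f z‖ ≤ Real.exp (c + 2 * q + j * q + q)
        rw [← Real.log_le_iff_le_exp hfz]
        linarith
  set T : ℝ := (64 * CE * (1 + Real.log n) / (Real.pi * ε ^ 2)) *
        (3 ^ m * Kl / ε * Real.exp (6 * q) * (n:ℝ) ^ (aa - 1) * B) with hT
  have hT0 : 0 ≤ T := by positivity
  calc ∫⁻ z in AA n, ENNReal.ofReal (‖deriv f z‖ * ‖PP ζ z‖)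
      ≤ ∫⁻ z in base ∪ ⋃ j ∈ Finset.range J, lev j, ENNReal.ofReal (‖deriv f z‖ * ‖PP ζ z‖) :=
        lintegral_mono_set hcov
    _ ≤ (∫⁻ z in base, ENNReal.ofReal (‖deriv f z‖ * ‖PP ζ z‖)) +
        ∫⁻ z in ⋃ j ∈ Finset.range J, lev j, ENNReal.ofReal (‖deriv f z‖ * ‖PP ζ z‖) :=
        lintegral_union_le _ _ _
    _ ≤ ENNReal.ofReal (2 ^ m * (Kl * (Real.exp (c + 2 * q) ^ 2 / ‖deriv f 0‖) *
          (n:ℝ) ^ (aa - 1))) + ∑ j ∈ Finset.range J, ENNReal.ofReal T := by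
        apply add_le_add (base_bound hloc K hf0 hn hζ)
        refine (lint_finset_le _ _ _).trans (Finset.sum_le_sum fun j _ => ?_)
        apply level_bound hKl hloc K hε hc (by omega) hn2 hn3 _ hζ hB hsup
        have : 0 ≤ (j : ℝ) * q := by positivity
        linarith
    _ = _ := by
        rw [Finset.sum_const, Finset.card_range, nsmul_eq_mul, ← ENNReal.ofReal_natCast,
          ← ENNReal.ofReal_mul (by positivity), ← ENNReal.ofReal_add (by positivity) (by positivity)]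

theorem deriv_bound (K : Ctx f r₁ C₁ CE) {m : ℕ} {ζ : Fin m → ℂ} (hζ : ∀ l, ‖ζ l‖ = 1) {z : ℂ}
    (h1 : r₁ ≤ ‖z‖) (h1' : ‖z‖ < 1) :
    ‖deriv (fun z => f z * PP ζ z) z‖ ≤ (m + 1) * (‖deriv f z‖ * ‖PP ζ z‖ +
      ‖f z‖ * ‖PP ζ z‖ * ∑ l, 1 / ‖z - ζ l‖) := by
  have h3 := MeanVal.CoeffEst.deriv_g_bound f K.diff (fun z h1 h2 => (K.hL z h1 h2).1) ζ hζ z h1 h1'
  have hfz : 0 < ‖f z‖ := norm_pos_iff.2 (K.hL z h1 h1').1
  have h4 : h2 f ζ z ≤ (‖deriv f z‖ / ‖f z‖ + ∑ l, 1 / ‖z - ζ l‖) ^ 2 := by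
    unfold h2
    have h5 : ∑ l, 1 / ‖z - ζ l‖ ^ 2 ≤ (∑ l, 1 / ‖z - ζ l‖) ^ 2 := by
      have e1 : ∀ l, 1 / ‖z - ζ l‖ ^ 2 = (1 / ‖z - ζ l‖) ^ 2 := by
        intro l
        rw [div_pow, one_pow]
      simp only [e1]
      exact Finset.sum_sq_le_sq_sum_of_nonneg (fun _ _ => by positivity)
    have h6 : 0 ≤ ∑ l, 1 / ‖z - ζ l‖ := Finset.sum_nonneg fun _ _ => by positivity
    have h7 : 0 ≤ ‖deriv f z‖ / ‖f z‖ := by positivity
    nlinarith [mul_nonneg h6 h7]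
  have h6 : 0 ≤ ∑ l, 1 / ‖z - ζ l‖ := Finset.sum_nonneg fun _ _ => by positivity
  have h8 : ‖deriv (fun z => f z * PP ζ z) z‖ ^ 2 ≤
      ((m + 1) * (‖f z * PP ζ z‖ * (‖deriv f z‖ / ‖f z‖ + ∑ l, 1 / ‖z - ζ l‖))) ^ 2 := by
    refine h3.trans ?_
    have hm : (m + 1 : ℝ) ≤ (m + 1) ^ 2 := by
      have : (0:ℝ) ≤ m := Nat.cast_nonneg m
      nlinarith
    calc (m + 1 : ℝ) * ‖f z * PP ζ z‖ ^ 2 * h2 f ζ z
        ≤ (m + 1) ^ 2 * ‖f z * PP ζ z‖ ^ 2 *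
          (‖deriv f z‖ / ‖f z‖ + ∑ l, 1 / ‖z - ζ l‖) ^ 2 := by
          apply mul_le_mul (mul_le_mul_of_nonneg_right hm (by positivity)) h4
            (MeanVal.CoeffEst.h2_nonneg f ζ z) (by positivity)
      _ = _ := by ring
  have h9 := abs_le_of_sq_le_sq' h8 (by positivity)
  refine h9.2.trans (le_of_eq ?_)
  rw [norm_mul]
  field_simp

end Pool.Agent.H194.MV
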