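import Pool.Agent.H194.MV.C1
import Pool.Agent.H194.MV.B10
import Pool.Graph.R_seed8.Helper772.MV.Univ
import Pool.Graph.R_seed8.Helper772.MV.CertT

set_option autoImplicit false

/-! # Admissible exponents for univalent functions -/

open MeasureTheory Metric Set
open scoped ENNReal Real

namespace Pool.Agent.H194.MV

open MeanVal

/-- the conclusion of the admissibility, for one function -/
def AdmF (m : ℕ) (f : ℂ → ℂ) (α : ℝ) : Prop :=
  ∀ k : ℕ, ∃ K : ℝ, ∀ n : ℕ, 0 < n →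
    ∃ c : ℕ → ℂ, c 0 = 1 ∧ (1 / 4 : ℝ) ^ m ≤ ‖c m‖ ∧
      ∀ j ≤ k, ‖∑ i ∈ Finset.range (m + 1), c i * coeff f (n + j + i)‖ ≤ K * (n : ℝ) ^ α

theorem exists_ctx {f : ℂ → ℂ} (hd : DifferentiableOn ℂ f (ball (0:ℂ) 1))
    (hi : InjOn f (ball (0:ℂ) 1)) (h0 : f 0 = 0) : ∃ C₁ CE : ℝ, Ctx f (1 / 2) C₁ CE := by
  have hab : AreaBound 1 f := areaBound_of_injOn hd hi
  obtain ⟨CL, hCL, hlogd⟩ := LogDeriv.logDeriv_bound one_pos
  have hE : ∀ a b : ℝ, 0 < a → a ≤ b →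
      ∫⁻ z in {z : ℂ | z ∈ ball (0:ℂ) 1 ∧ a < ‖f z‖ ∧ ‖f z‖ < b},
        ENNReal.ofReal ((‖deriv f z‖ / ‖f z‖) ^ 2)
        ≤ ENNReal.ofReal (π * 1 * (1 + 2 * Real.log (b / a))) :=
    fun a b ha hb => Energy.energy_le one_pos hab ha hb
  have hz : ∀ z : ℂ, z ≠ 0 → ‖z‖ < 1 → f z ≠ 0 := by
    intro z hz0 hz1 h
    apply hz0
    apply hi (by rwa [mem_ball_zero_iff]) (mem_ball_self one_pos)
    rw [h, h0]
  have hL : ∀ z : ℂ, 1 / 2 ≤ ‖z‖ → ‖z‖ < 1 → f z ≠ 0 ∧ ‖deriv f z‖ * (1 - ‖z‖) ≤ CL * ‖f z‖ := by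
    intro z hz1 hz2
    have hz0 : z ≠ 0 := by
      intro h
      rw [h, norm_zero] at hz1
      norm_num at hz1
    refine ⟨hz z hz0 hz2, ?_⟩
    refine hlogd f z (1 - ‖z‖) (by linarith) ?_ hd ?_ hE
    · intro w hw
      rw [mem_ball, dist_eq_norm] at hw
      rw [mem_ball_zero_iff]
      have := norm_le_insert' w z
      linarith
    · intro w hw
      rw [mem_ball, dist_eq_norm] at hw
      have h2 := norm_le_insert' w z
      apply hz w
      · intro h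
        rw [h, zero_sub, norm_neg] at hw
        linarith
      · linarith
  obtain ⟨C₂, hC₂, hlog⟩ := Logs.logf_bound (1 / 2) CL (by norm_num) (by norm_num) hCL.le f hd hL
  obtain ⟨C₃, hC₃, hEn⟩ := Logs.annulus_energy 1 (1 / 2) CL C₂ one_pos (by norm_num) (by norm_num)
    hCL.le hC₂ f hd hE (fun z h1 h2 => ⟨(hL z h1 h2).1, hlog z h1 h2⟩)
  exact ⟨CL, C₃, ⟨hd, hi, by norm_num, by norm_num, hCL, hC₃, hL, hEn⟩⟩

/-- a certificate gives admissible exponents -/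
theorem admF_of_certA (m : ℕ) (σ : Fin (m + 1) → ℝ) (Vs : ℝ)
    (hσ : ∀ i, 0 ≤ σ i ∧ σ i ≤ 2) (hVs : 0 ≤ Vs) (hcert : CertA aa (m + 1) 1 Vs σ) (α : ℝ)
    (hα : aa - 1 + Vs < α) {f : ℂ → ℂ} (hd : DifferentiableOn ℂ f (ball (0:ℂ) 1))
    (hi : InjOn f (ball (0:ℂ) 1)) (h0 : f 0 = 0) : AdmF m f α := by
  intro k
  obtain ⟨C₁, CE, K⟩ := exists_ctx hd hi h0
  have hab : AreaBound 1 f := areaBound_of_injOn hd hi
  set ε : ℝ := (α - (aa - 1 + Vs)) / 8 with hεdef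
  have hε : 0 < ε := by rw [hεdef]; linarith
  have haa : 0 ≤ aa := by unfold aa; norm_num
  obtain ⟨C₆, n₁, hC₆, hn₁, hsup⟩ := weighted_sup_boundA aa haa m 1 one_pos σ Vs hσ hcert f hab
    (1 / 2) C₁ (by norm_num) (by norm_num) K.C0.le K.hL ε hε
  obtain ⟨Q, n₂, hQ, hco⟩ := coeff_bound K m (k + m) hε
  apply eventually_enough
  refine ⟨Q * (1 + 2 * C₆), max n₁ n₂, fun n hn hnpos => ?_⟩
  have hn2 : 2 ≤ n := hn₁.trans ((le_max_left _ _).trans hn)
  have hnR : (2:ℝ) ≤ n := by exact_mod_cast hn2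
  have hnR0 : (0:ℝ) < n := by linarith
  obtain ⟨ζ, hζ, hζs⟩ := hsup n ((le_max_left _ _).trans hn)
  obtain ⟨c, hc0, hcm, hc⟩ := ProdCoeff.prod_coeff m f hd ζ hζ
  refine ⟨c, hc0, ?_, fun j hj => ?_⟩
  · rw [hcm]
    exact pow_le_one₀ (by norm_num) (by norm_num)
  rw [← hc (n + j)]
  set B : ℝ := C₆ * (1 + (n:ℝ) ^ (Vs + ε)) with hB
  have hnp : 0 < (n:ℝ) ^ (Vs + ε) := Real.rpow_pos_of_pos hnR0 _
  have hB0 : 0 ≤ B := by positivity
  have h1 := hco n ((le_max_right _ _).trans hn) ζ hζ B hB0 (fun z hz1 hz2 => by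
    have h2 := hζs z hz1 hz2
    rw [CoeffEst.PP_norm]
    exact h2) (n + j + m) (by omega) (by omega)
  have h1' : ‖coeff (fun z => f z * ∏ l, (z - ζ l)) (n + j + m)‖ ≤
      Q * (1 + B) * ((n:ℝ) ^ ε) ^ 7 * (n:ℝ) ^ (aa - 1) := h1
  refine h1'.trans ?_
  have hge1 : (1:ℝ) ≤ (n:ℝ) ^ (Vs + ε) := Real.one_le_rpow (by linarith) (by linarith)
  have h4 : 1 + B ≤ (1 + 2 * C₆) * (n:ℝ) ^ (Vs + ε) := by
    rw [hB]; nlinarith
  have h9 : (n:ℝ) ^ (Vs + ε) * ((n:ℝ) ^ ε) ^ 7 * (n:ℝ) ^ (aa - 1) = (n:ℝ) ^ α := by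
    rw [← Real.rpow_natCast ((n:ℝ) ^ ε) 7, ← Real.rpow_mul hnR0.le, ← Real.rpow_add hnR0,
      ← Real.rpow_add hnR0]
    congr 1
    push_cast
    rw [hεdef]
    ring
  calc Q * (1 + B) * ((n:ℝ) ^ ε) ^ 7 * (n:ℝ) ^ (aa - 1)
      ≤ Q * ((1 + 2 * C₆) * (n:ℝ) ^ (Vs + ε)) * ((n:ℝ) ^ ε) ^ 7 * (n:ℝ) ^ (aa - 1) := by
        gcongr
    _ = Q * (1 + 2 * C₆) * ((n:ℝ) ^ (Vs + ε) * ((n:ℝ) ^ ε) ^ 7 * (n:ℝ) ^ (aa - 1)) := by ring
    _ = Q * (1 + 2 * C₆) * (n:ℝ) ^ α := by rw [h9]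

/-- tail-tight certificates -/
theorem admF_of_T (m : ℕ) (T : ℕ → ℝ)
    (hTm : T (m + 1) = 0) (hT0 : T 0 ^ 2 = 2) (hnn : ∀ i ≤ m, 0 ≤ T i)
    (hg : ∀ i ≤ m, (2 + aa) * T (i + 1) ≤ (2 - aa) * T i) (b : ℝ)
    (hb : ∑ i ∈ Finset.range (m + 1), ((T i - T (i + 1)) ^ 2 - aa * ((T i ^ 2 - T (i + 1) ^ 2) / 2))
      = b) (α : ℝ) (hα : aa - 1 + b < α) {f : ℂ → ℂ} (hfd : DifferentiableOn ℂ f (ball (0:ℂ) 1))
    (hfi : InjOn f (ball (0:ℂ) 1)) (hf0 : f 0 = 0) : AdmF m f α := by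
  have haa0 : 0 < aa := by unfold aa; norm_num
  have haa1 : aa < 1 := by unfold aa; norm_num
  have hnn' : ∀ i ≤ m + 1, 0 ≤ T i := by
    intro i hi
    rcases Nat.lt_or_ge i (m + 1) with h | h
    · exact hnn i (by omega)
    · have : i = m + 1 := by omega
      rw [this, hTm]
  have hdec : ∀ i ≤ m, T (i + 1) ≤ T i := by
    intro i hi
    have h1 := hg i hi
    have h2 := hnn i hi
    have h3 := hnn' (i + 1) (by omega)
    nlinarith
  have hanti : ∀ i j, i ≤ j → j ≤ m + 1 → T j ≤ T i := by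
    intro i j hij hj
    induction j, hij using Nat.le_induction with
    | base => exact le_rfl
    | succ j hij ih => exact (hdec j (by omega)).trans (ih (by omega))
  set σ : ℕ → ℝ := fun i => T i - T (i + 1) with hσ
  set lam : ℕ → ℝ := fun i => (T i ^ 2 - T (i + 1) ^ 2) / 2 with hlam
  set μ : ℕ → ℝ := fun i => (T i - T (i + 1)) ^ 2 - aa * ((T i ^ 2 - T (i + 1) ^ 2) / 2) with hμ
  have hσ0 : ∀ i ≤ m, 0 ≤ σ i := fun i hi => by
    simp only [hσ]; linarith [hdec i hi]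
  have hlam0 : ∀ i ≤ m, 0 ≤ lam i := by
    intro i hi
    simp only [hlam]
    apply div_nonneg _ (by positivity)
    have h1 := hdec i hi
    have h2 := hnn' (i + 1) (by omega)
    nlinarith
  have hμ0 : ∀ i ≤ m, 0 ≤ μ i := by
    intro i hi
    have h1 := hdec i hi
    have h2 := hg i hi
    have h3 : μ i = (T i - T (i + 1)) * ((2 - aa) * T i - (2 + aa) * T (i + 1)) / 2 := by
      simp only [hμ]
      ring
    rw [h3]
    apply div_nonneg _ (by norm_num)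
    apply mul_nonneg <;> linarith
  have hpair : ∀ i k, i < k → k ≤ m → 2 * σ i * σ k ≤ lam i + lam k := by
    intro i k hik hk
    have h1 := hσ0 i (by omega)
    have h2 := hσ0 k hk
    have h3 : T k ≤ T (i + 1) := hanti (i + 1) k (by omega) (by omega)
    have h4 := hnn' (k + 1) (by omega)
    have h5 : lam i = σ i * (σ i + 2 * T (i + 1)) / 2 := by
      simp only [hσ, hlam]; ring
    have h6 : lam k = σ k * (σ k + 2 * T (k + 1)) / 2 := by
      simp only [hσ, hlam]; ring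
    have h7 : σ k ≤ T (i + 1) := by
      simp only [hσ]; linarith
    have h8 : (σ i + σ k) ^ 2 / 2 ≤ lam i + lam k := by
      rw [h5, h6, ← add_div]
      apply div_le_div_of_nonneg_right _ (by positivity)
      nlinarith [mul_nonneg h1 (sub_nonneg.2 h7), mul_nonneg h2 h4]
    refine le_trans ?_ h8
    nlinarith [sq_nonneg (σ i - σ k)]
  have hbsum : ∑ i : Fin (m + 1), μ i = b := by
    rw [Fin.sum_univ_eq_sum_range]
    exact hb
  have hb0 : 0 ≤ b := by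
    rw [← hbsum]
    exact Finset.sum_nonneg fun i _ => hμ0 i (by omega)
  refine admF_of_certA m (fun i : Fin (m + 1) => σ i) b ?_ hb0 ?_ α hα hfd hfi hf0
  · intro i
    refine ⟨hσ0 i (by omega), ?_⟩
    have h1 : σ i ≤ T 0 := by
      have h2 := hanti 0 i (Nat.zero_le _) (by omega)
      have h3 := hnn' (i + 1) (by omega)
      simp only [hσ]
      linarith
    have h2 : T 0 ≤ 2 := by
      have := hnn 0 (Nat.zero_le _)
      nlinarith
    linarith
  · rw [← hbsum]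
    apply certA_of aa (m + 1) 1 one_pos (fun i : Fin (m + 1) => lam i)
      (fun i : Fin (m + 1) => μ i) (fun i : Fin (m + 1) => σ i)
    · exact fun i => hlam0 i (by omega)
    · rw [Fin.sum_univ_eq_sum_range (fun i => lam i), Finset.range_eq_Ico]
      simp only [hlam]
      rw [← Finset.sum_div, tele_Ico (fun i => T i ^ 2) 0 (m + 1) (by omega), hTm, hT0]
      norm_num
    · exact fun i => hμ0 i (by omega)
    · exact fun i => hσ0 i (by omega)
    · intro i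
      simp only [hσ, hlam, hμ]
      ring
    · intro j
      rw [tail_sum (m + 1) lam j, tail_sum (m + 1) σ j]
      simp only [hlam, hσ]
      rw [← Finset.sum_div, tele_Ico (fun i => T i ^ 2) j (m + 1) (by omega),
        tele_Ico T j (m + 1) (by omega), hTm]
      apply le_of_eq
      ring
    · intro i k hik
      have hik' : (i:ℕ) ≠ k := fun h => hik (Fin.ext h)
      rcases Nat.lt_or_gt_of_ne hik' with h | h
      · exact hpair i k h (by omega)
      · have := hpair k i h (by omega)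
        linarith

/-- the ratio -/
noncomputable def rr : ℝ := (2 - aa) / (2 + aa)

theorem admF_main (m : ℕ) (α : ℝ) (hα : aa - 1 + (1 - aa) * rr ^ (2 * m) < α)
    {f : ℂ → ℂ} (hfd : DifferentiableOn ℂ f (ball (0:ℂ) 1))
    (hfi : InjOn f (ball (0:ℂ) 1)) (hf0 : f 0 = 0) : AdmF (m + 1) f α := by
  have haa0 : 0 < aa := by unfold aa; norm_num
  have haa1 : aa < 1 / 2 := by unfold aa; norm_num
  have hρ0 : 0 < rr := div_pos (by linarith) (by linarith)
  have hρe : (2 + aa) * rr = 2 - aa := by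
    unfold rr
    field_simp
  have hs : Real.sqrt 2 ^ 2 = 2 := Real.sq_sqrt (by norm_num)
  have hs0 := Real.sqrt_nonneg 2
  set T : ℕ → ℝ := fun i => if i ≤ m then Real.sqrt 2 * rr ^ i else
    if i = m + 1 then Real.sqrt 2 * rr ^ m / 2 else 0 with hT
  have hTle : ∀ i ≤ m, T i = Real.sqrt 2 * rr ^ i := fun i hi => by simp only [hT, if_pos hi]
  have hTm1 : T (m + 1) = Real.sqrt 2 * rr ^ m / 2 := by simp [hT]
  have hTm2 : T (m + 1 + 1) = 0 := by simp [hT]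
  refine admF_of_T (m + 1) T hTm2 ?_ ?_ ?_ _ ?_ α hα hfd hfi hf0
  · rw [hTle 0 (Nat.zero_le _)]; simpa using hs
  · intro i hi
    rcases Nat.lt_or_ge i (m + 1) with h | h
    · rw [hTle i (by omega)]; positivity
    · have : i = m + 1 := by omega
      subst this
      rw [hTm1]; positivity
  · intro i hi
    rcases Nat.lt_or_ge i m with h | h
    · rw [hTle i h.le, hTle (i + 1) h, pow_succ]
      apply le_of_eq
      linear_combination (Real.sqrt 2 * rr ^ i) * hρe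
    · rcases Nat.lt_or_ge i (m + 1) with h' | h'
      · have : i = m := by omega
        subst this
        rw [hTm1, hTle i le_rfl]
        have h1 : 0 ≤ Real.sqrt 2 * rr ^ i := by positivity
        nlinarith
      · have : i = m + 1 := by omega
        subst this
        rw [hTm2, hTm1]
        have : 0 ≤ 2 - aa := by linarith
        simp only [mul_zero]
        positivity
  · rw [Finset.sum_range_succ, Finset.sum_range_succ]
    have h0 : ∑ i ∈ Finset.range m,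
        ((T i - T (i + 1)) ^ 2 - aa * ((T i ^ 2 - T (i + 1) ^ 2) / 2)) = 0 := by
      apply Finset.sum_eq_zero
      intro i hi
      have hi' := Finset.mem_range.1 hi
      rw [hTle i hi'.le, hTle (i + 1) hi', pow_succ rr i]
      have h1 : (Real.sqrt 2 * rr ^ i - Real.sqrt 2 * (rr ^ i * rr)) ^ 2 -
          aa * (((Real.sqrt 2 * rr ^ i) ^ 2 - (Real.sqrt 2 * (rr ^ i * rr)) ^ 2) / 2) =
          (Real.sqrt 2 ^ 2 * (rr ^ i) ^ 2) * (1 - rr) * ((2 - aa) - (2 + aa) * rr) / 2 := by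
        ring
      rw [h1, hρe]
      simp
    rw [h0, hTm2, hTm1, hTle m le_rfl, zero_add]
    have h1 : (Real.sqrt 2 * rr ^ m - Real.sqrt 2 * rr ^ m / 2) ^ 2 -
        aa * (((Real.sqrt 2 * rr ^ m) ^ 2 - (Real.sqrt 2 * rr ^ m / 2) ^ 2) / 2) +
        ((Real.sqrt 2 * rr ^ m / 2 - 0) ^ 2 -
          aa * (((Real.sqrt 2 * rr ^ m / 2) ^ 2 - 0 ^ 2) / 2))
        = Real.sqrt 2 ^ 2 * rr ^ (2 * m) * (1 / 2 - aa / 2) := by
      rw [pow_mul' rr 2 m]
      ring
    rw [h1, hs]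
    ring

end Pool.Agent.H194.MV
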